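import Mathlib

/-!
Normed extensions of `ℚ_p`: roots of unity of order prime to `p`, Teichmüller elements.
-/

set_option autoImplicit false
set_option linter.unusedSectionVars false

open Filter Topology

namespace Pool.Agent.KS6_3.ZR

variable {p : ℕ} [Fact p.Prime] {L : Type*} [NormedField L] [NormedAlgebra ℚ_[p] L]

lemma norm_nat (n : ℕ) : ‖(n : L)‖ = ‖(n : ℚ_[p])‖ := by
  rw [← norm_algebraMap' L (n : ℚ_[p]), map_natCast]

lemma norm_p : ‖(p : L)‖ = (p : ℝ)⁻¹ := by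
  rw [norm_nat (p := p) p, Padic.norm_p]

lemma norm_p_lt : ‖(p : L)‖ < 1 := by
  rw [norm_p]
  exact inv_lt_one_of_one_lt₀ (by exact_mod_cast (Fact.out : p.Prime).one_lt)

lemma norm_coprime {n : ℕ} (h : n.Coprime p) : ‖(n : L)‖ = 1 := by
  rw [norm_nat (p := p) n, Padic.norm_natCast_eq_one_iff]
  exact h.symm

variable [IsUltrametricDist L]

lemma norm_sum_lt {ι : Type*} (s : Finset ι) (f : ι → L) {C : ℝ} (hC : 0 < C)
    (h : ∀ i ∈ s, ‖f i‖ < C) : ‖∑ i ∈ s, f i‖ < C := by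
  rcases s.eq_empty_or_nonempty with rfl | hs
  · simpa using hC
  · obtain ⟨i, hi, hle⟩ := IsUltrametricDist.exists_norm_finsetSum_le_of_nonempty hs f
    exact hle.trans_lt (h i hi)

lemma norm_sum_le {ι : Type*} (s : Finset ι) (f : ι → L) {C : ℝ} (hC : 0 ≤ C)
    (h : ∀ i ∈ s, ‖f i‖ ≤ C) : ‖∑ i ∈ s, f i‖ ≤ C :=
  IsUltrametricDist.norm_sum_le_of_forall_le_of_nonneg hC h

lemma norm_sub_lt {a b c : L} {C : ℝ} (h1 : ‖a - b‖ < C) (h2 : ‖b - c‖ < C) : ‖a - c‖ < C := by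
  have h : a - c = (a - b) + (b - c) := by ring
  rw [h]
  exact (IsUltrametricDist.norm_add_le_max _ _).trans_lt (max_lt h1 h2)

lemma norm_eq_of_sub_lt {a b : L} (h : ‖a - b‖ < ‖b‖) : ‖a‖ = ‖b‖ := by
  have h1 : a = b + (a - b) := by ring
  rw [h1, IsUltrametricDist.norm_add_eq_max_of_norm_ne_norm h.ne', max_eq_left h.le]

lemma norm_one_of_pow {u : L} {N : ℕ} (hN : N ≠ 0) (h : u ^ N = 1) : ‖u‖ = 1 := by
  have h1 : ‖u‖ ^ N = 1 := by rw [← norm_pow, h, norm_one]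
  exact (pow_eq_one_iff_of_nonneg (norm_nonneg _) hN).1 h1

lemma norm_pow_sub_one_le {w : L} (hw : ‖w‖ ≤ 1) (i : ℕ) : ‖w ^ i - 1‖ ≤ ‖w - 1‖ := by
  rw [← geom_sum_mul, norm_mul]
  refine mul_le_of_le_one_left (norm_nonneg _) ?_
  refine norm_sum_le _ _ zero_le_one fun j _ => ?_
  rw [norm_pow]
  exact pow_le_one₀ (norm_nonneg _) hw

lemma norm_le_one_of_sub {w : L} (h : ‖w - 1‖ ≤ 1) : ‖w‖ ≤ 1 := by
  have h1 : w = (w - 1) + 1 := by ring
  rw [h1]
  exact (IsUltrametricDist.norm_add_le_max _ _).trans (max_le h (by rw [norm_one]))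

/-- Roots of unity of order prime to `p` congruent to `1`. -/
lemma root_eq_one {w : L} {N : ℕ} (hc : N.Coprime p) (h : w ^ N = 1)
    (h1 : ‖w - 1‖ < 1) : w = 1 := by
  by_contra hne
  have h2 : w - 1 ≠ 0 := sub_ne_zero.2 hne
  have h3 : ∑ i ∈ Finset.range N, w ^ i = 0 := by
    have h4 := geom_sum_mul w N
    rw [h, sub_self] at h4
    exact (mul_eq_zero.1 h4).resolve_right h2
  have hw : ‖w‖ ≤ 1 := norm_le_one_of_sub h1.le
  have h5 : ((N : ℕ) : L) = -∑ i ∈ Finset.range N, (w ^ i - 1) := by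
    rw [Finset.sum_sub_distrib, h3]
    simp
  have h6 : ‖((N : ℕ) : L)‖ < 1 := by
    rw [h5, norm_neg]
    refine norm_sum_lt _ _ one_pos fun i _ => ?_
    exact (norm_pow_sub_one_le hw i).trans_lt h1
  rw [norm_coprime (p := p) hc] at h6
  exact lt_irrefl _ h6

lemma root_eq {u v : L} {N M : ℕ} (hN : N.Coprime p) (hM : M.Coprime p)
    (hu : u ^ N = 1) (hv : v ^ M = 1) (hN0 : N ≠ 0) (hM0 : M ≠ 0) (h : ‖u - v‖ < 1) : u = v := by
  have hv1 := norm_one_of_pow hM0 hv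
  have hv0 : v ≠ 0 := by
    intro h0
    rw [h0, norm_zero] at hv1
    exact zero_ne_one hv1
  have h1 : u / v = 1 := by
    refine root_eq_one (p := p) (N := N * M) (Nat.Coprime.mul_left hN hM) ?_ ?_
    · rw [div_pow, pow_mul, hu, one_pow, mul_comm N M, pow_mul, hv, one_pow, div_one]
    · rw [div_sub_one hv0, norm_div, hv1, div_one]
      exact h
  exact (div_eq_one_iff_eq hv0).1 h1

/-- The `p`-th root of a principal unit is a principal unit. -/
lemma pow_p_one {y : L} (hy : ‖y‖ ≤ 1) (h : ‖y ^ p - 1‖ < 1) : ‖y - 1‖ < 1 := by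
  have hp : p.Prime := Fact.out
  let O : Subring L :=
    { carrier := {x | ‖x‖ ≤ 1}
      mul_mem' := by
        intro a b ha hb
        show ‖a * b‖ ≤ 1
        rw [norm_mul]
        exact mul_le_one₀ ha (norm_nonneg _) hb
      one_mem' := by show ‖(1 : L)‖ ≤ 1; rw [norm_one]
      add_mem' := by
        intro a b ha hb
        exact (IsUltrametricDist.norm_add_le_max a b).trans (max_le ha hb)
      zero_mem' := by show ‖(0 : L)‖ ≤ 1; rw [norm_zero]; exact zero_le_one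
      neg_mem' := by
        intro a ha
        show ‖-a‖ ≤ 1
        rw [norm_neg]
        exact ha }
  have h1 : ‖y - 1‖ ≤ 1 := by
    rw [sub_eq_add_neg]
    refine (IsUltrametricDist.norm_add_le_max _ _).trans (max_le hy ?_)
    rw [norm_neg, norm_one]
  let a : O := ⟨y - 1, h1⟩
  obtain ⟨r, hr⟩ := exists_add_pow_prime_eq hp a 1
  have h2 : ((a + 1 : O) : L) = y := by simp [a]
  have h3 := congrArg (fun t : O => (t : L)) hr
  have h4 : y ^ p = (y - 1) ^ p + 1 + p * ((y - 1) * (r : L)) := by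
    have h5 : (((a + 1) ^ p : O) : L) = y ^ p := by
      rw [SubmonoidClass.coe_pow, h2]
    have h6 : ((a ^ p + 1 ^ p + p * a * 1 * r : O) : L) =
        (y - 1) ^ p + 1 + p * ((y - 1) * (r : L)) := by
      simp only [one_pow, mul_one, Subring.coe_add, Subring.coe_mul, Subring.coe_pow, Subring.coe_one,
        a, Subring.coe_natCast]
      ring
    rw [← h5, ← h6]
    exact h3
  have h7 : (y - 1) ^ p = (y ^ p - 1) - p * ((y - 1) * (r : L)) := by
    rw [h4]; ring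
  have h8 : ‖(p : L) * ((y - 1) * (r : L))‖ < 1 := by
    rw [norm_mul, norm_mul]
    have hr1 : ‖(r : L)‖ ≤ 1 := r.2
    calc ‖(p : L)‖ * (‖y - 1‖ * ‖(r : L)‖) ≤ ‖(p : L)‖ * 1 :=
          mul_le_mul_of_nonneg_left (mul_le_one₀ h1 (norm_nonneg _) hr1) (norm_nonneg _)
      _ < 1 := by rw [mul_one]; exact norm_p_lt
  have h9 : ‖(y - 1) ^ p‖ < 1 := by
    rw [h7, sub_eq_add_neg]
    refine (IsUltrametricDist.norm_add_le_max _ _).trans_lt (max_lt h ?_)
    rw [norm_neg]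
    exact h8
  rw [norm_pow] at h9
  by_contra hcon
  push Not at hcon
  exact absurd h9 (not_lt.2 (one_le_pow₀ hcon))

lemma pow_pp_one {y : L} (hy : ‖y‖ ≤ 1) {a : ℕ} (h : ‖y ^ p ^ a - 1‖ < 1) : ‖y - 1‖ < 1 := by
  induction a with
  | zero => simpa using h
  | succ a ih =>
    apply ih
    apply pow_p_one (p := p)
    · rw [norm_pow]
      exact pow_le_one₀ (norm_nonneg _) hy
    · rwa [← pow_mul, ← pow_succ]

/-- `p`-th powers move principal units to `1`. -/
lemma pow_p_step {w : L} {r : ℝ} (hr : ‖(p : L)‖ ≤ r) (hw : ‖w - 1‖ ≤ r) (hr1 : r < 1) :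
    ‖w ^ p - 1‖ ≤ r * ‖w - 1‖ := by
  have hw1 : ‖w‖ ≤ 1 := norm_le_one_of_sub (hw.trans hr1.le)
  rw [← geom_sum_mul, norm_mul]
  refine mul_le_mul_of_nonneg_right ?_ (norm_nonneg _)
  have h1 : ∑ i ∈ Finset.range p, w ^ i = (∑ i ∈ Finset.range p, (w ^ i - 1)) + p := by
    rw [Finset.sum_sub_distrib]
    simp
  rw [h1]
  refine (IsUltrametricDist.norm_add_le_max _ _).trans (max_le ?_ hr)
  refine norm_sum_le _ _ ((norm_nonneg _).trans hr) fun i _ => ?_
  exact (norm_pow_sub_one_le hw1 i).trans hw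

lemma pow_p_iter {w : L} (hw : ‖w - 1‖ < 1) (j : ℕ) :
    ‖w ^ p ^ j - 1‖ ≤ (max ‖(p : L)‖ ‖w - 1‖) ^ j := by
  set r := max ‖(p : L)‖ ‖w - 1‖ with hrdef
  have hr0 : 0 ≤ r := (norm_nonneg _).trans (le_max_left _ _)
  have hr1 : r < 1 := max_lt norm_p_lt hw
  have key : ∀ j, ‖w ^ p ^ j - 1‖ ≤ r ^ j ∧ ‖w ^ p ^ j - 1‖ ≤ r := by
    intro j
    induction j with
    | zero =>
      constructor
      · simpa using hw.le
      · simp [hrdef]
    | succ j ih =>
      have h1 := pow_p_step (p := p) (w := w ^ p ^ j) (le_max_left _ _) ih.2 hr1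
      rw [← pow_mul, ← pow_succ] at h1
      constructor
      · refine h1.trans ?_
        rw [pow_succ']
        exact mul_le_mul_of_nonneg_left ih.1 hr0
      · refine h1.trans ?_
        calc r * ‖w ^ p ^ j - 1‖ ≤ 1 * ‖w ^ p ^ j - 1‖ :=
              mul_le_mul_of_nonneg_right hr1.le (norm_nonneg _)
          _ ≤ r := by rw [one_mul]; exact ih.2
  exact (key j).1

end Pool.Agent.KS6_3.ZR
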