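import Mathlib
import Pool.Agent.KS6_3.ZR.Un

/-!
Teichmüller elements in finite extensions of `ℚ_p`.
-/

set_option autoImplicit false
set_option linter.unusedSectionVars false

open Filter Topology

namespace Pool.Agent.KS6_3.ZR

variable {p : ℕ} [Fact p.Prime] {L : Type*} [NormedField L] [NormedAlgebra ℚ_[p] L]
  [IsUltrametricDist L]

lemma exists_pow_one [FiniteDimensional ℚ_[p] L] {x : L} (hx : ‖x‖ = 1) :
    ∃ m : ℕ, m ≠ 0 ∧ ‖x ^ m - 1‖ < 1 := by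
  have : ProperSpace L := FiniteDimensional.proper ℚ_[p] L
  obtain ⟨a, _, φ, hφ, hlim⟩ := (isCompact_closedBall (0 : L) 1).tendsto_subseq
    (x := fun n => x ^ n) (fun n => by simp [hx])
  have hc := hlim.cauchySeq
  rw [Metric.cauchySeq_iff'] at hc
  obtain ⟨N, hN⟩ := hc 1 one_pos
  have h1 := hN (N + 1) (by omega)
  have h2 : φ N < φ (N + 1) := hφ (Nat.lt_succ_self N)
  refine ⟨φ (N + 1) - φ N, by omega, ?_⟩
  have h3 : x ^ φ (N + 1) - x ^ φ N = x ^ φ N * (x ^ (φ (N + 1) - φ N) - 1) := by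
    rw [mul_sub, ← pow_add, mul_one]
    congr 2
    omega
  simp only [Function.comp_apply] at h1
  rw [dist_eq_norm, h3, norm_mul, norm_pow, hx, one_pow, one_mul] at h1
  exact h1

theorem exists_teich [FiniteDimensional ℚ_[p] L] {x : L} (hx : ‖x‖ = 1) :
    ∃ u : L, ∃ N : ℕ, N ≠ 0 ∧ N.Coprime p ∧ u ^ N = 1 ∧ ‖x - u‖ < 1 := by
  have hp : p.Prime := Fact.out
  have : ProperSpace L := FiniteDimensional.proper ℚ_[p] L
  have : CompleteSpace L := FiniteDimensional.complete ℚ_[p] L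
  obtain ⟨m, hm0, hm⟩ := exists_pow_one (p := p) hx
  obtain ⟨a, m', hm', rfl⟩ := Nat.exists_eq_pow_mul_and_not_dvd hm0 p hp.ne_one
  have hcop : Nat.Coprime p m' := (Nat.Prime.coprime_iff_not_dvd hp).2 hm'
  have hm'0 : m' ≠ 0 := by
    rintro rfl
    exact hm' (dvd_zero p)
  have h1 : ‖x ^ m' - 1‖ < 1 := by
    apply pow_pp_one (p := p) (a := a)
    · rw [norm_pow, hx, one_pow]
    · rw [← pow_mul, mul_comm m']
      exact hm
  set k := Nat.totient m' with hk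
  have hk0 : k ≠ 0 := (Nat.totient_pos.2 (Nat.pos_of_ne_zero hm'0)).ne'
  obtain ⟨Q, hQ⟩ : ∃ Q, Q = p ^ k := ⟨_, rfl⟩
  have hQ1 : 1 < Q := by rw [hQ]; exact Nat.one_lt_pow hk0 hp.one_lt
  have hdvd : m' ∣ Q - 1 := (Nat.modEq_iff_dvd' hQ1.le).1 (by
    rw [hQ]; exact (Nat.ModEq.pow_totient hcop).symm)
  obtain ⟨t, ht⟩ := hdvd
  obtain ⟨w, hw⟩ : ∃ w, w = x ^ (Q - 1) := ⟨_, rfl⟩
  have hw1 : ‖w - 1‖ < 1 := by
    rw [hw, ht, pow_mul]
    refine (norm_pow_sub_one_le ?_ t).trans_lt h1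
    rw [norm_pow, hx, one_pow]
  have hwn : ‖w‖ ≤ 1 := by rw [hw, norm_pow, hx, one_pow]
  have hdiv : ∀ j, Q - 1 ∣ Q ^ j - 1 := by
    intro j
    have := Nat.sub_dvd_pow_sub_pow Q 1 j
    rwa [one_pow] at this
  have hQpos : ∀ j, 1 ≤ Q ^ j := fun j => Nat.one_le_pow _ _ (by omega)
  -- distance to `x`
  have hdist : ∀ j, ‖x ^ Q ^ j - x‖ ≤ ‖w - 1‖ := by
    intro j
    obtain ⟨s, hs⟩ := hdiv j
    have h2 : x ^ Q ^ j - x = x * (w ^ s - 1) := by
      rw [hw, ← pow_mul, ← hs, mul_sub, mul_one, ← pow_succ']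
      congr 2
      have := hQpos j
      omega
    rw [h2, norm_mul, hx, one_mul]
    exact norm_pow_sub_one_le hwn s
  have hstep : ∀ j, x ^ Q ^ (j + 1) - x ^ Q ^ j = x ^ Q ^ j * (w ^ p ^ (k * j) - 1) := by
    intro j
    rw [hw, ← pow_mul, mul_sub, mul_one, ← pow_add]
    congr 2
    have h3 : p ^ (k * j) = Q ^ j := by rw [hQ, pow_mul]
    rw [h3, Nat.sub_mul, one_mul, pow_succ']
    have h4 : Q ^ j ≤ Q * Q ^ j := Nat.le_mul_of_pos_left _ (by omega)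
    omega
  have hcauchy : CauchySeq (fun j : ℕ => x ^ Q ^ j) := by
    apply NonarchimedeanAddGroup.cauchySeq_of_tendsto_sub_nhds_zero
    rw [tendsto_zero_iff_norm_tendsto_zero]
    set r := max ‖(p : L)‖ ‖w - 1‖ with hr
    have hr0 : 0 ≤ r := (norm_nonneg _).trans (le_max_left _ _)
    have hr1 : r < 1 := max_lt norm_p_lt hw1
    refine squeeze_zero (fun _ => norm_nonneg _) (g := fun j : ℕ => r ^ j) ?_
      (tendsto_pow_atTop_nhds_zero_of_lt_one hr0 hr1)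
    intro j
    show ‖x ^ Q ^ (j + 1) - x ^ Q ^ j‖ ≤ r ^ j
    rw [hstep, norm_mul, norm_pow, hx, one_pow, one_mul]
    refine (pow_p_iter (p := p) hw1 (k * j)).trans ?_
    exact pow_le_pow_of_le_one hr0 hr1.le (Nat.le_mul_of_pos_left _ (Nat.pos_of_ne_zero hk0))
  obtain ⟨u, hu⟩ := cauchySeq_tendsto_of_complete hcauchy
  have h5 : ‖u - x‖ ≤ ‖w - 1‖ := by
    have h6 : Tendsto (fun j : ℕ => ‖x ^ Q ^ j - x‖) atTop (𝓝 ‖u - x‖) :=
      (hu.sub_const x).norm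
    exact le_of_tendsto' h6 hdist
  have h7 : u ^ Q = u := by
    have h8 : Tendsto (fun j : ℕ => (x ^ Q ^ j) ^ Q) atTop (𝓝 (u ^ Q)) := hu.pow Q
    have h9 : Tendsto (fun j : ℕ => x ^ Q ^ (j + 1)) atTop (𝓝 u) :=
      hu.comp (tendsto_add_atTop_nat 1)
    refine tendsto_nhds_unique h8 (h9.congr fun j => ?_)
    rw [← pow_mul, ← pow_succ]
  have hun : ‖u‖ = 1 := by
    rw [← hx]
    apply norm_eq_of_sub_lt
    rw [hx]
    exact h5.trans_lt hw1
  have hu0 : u ≠ 0 := by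
    intro h0
    rw [h0, norm_zero] at hun
    exact zero_ne_one hun
  refine ⟨u, Q - 1, by omega, ?_, ?_, ?_⟩
  · have h10 : Nat.Coprime (Q - 1) Q := by
      have : Nat.Coprime (Q - 1) (Q - 1 + 1) := by simp
      rwa [Nat.sub_add_cancel hQ1.le] at this
    exact Nat.Coprime.coprime_dvd_right (by rw [hQ]; exact dvd_pow_self p hk0) h10
  · have h11 : u ^ (Q - 1) * u = 1 * u := by
      rw [← pow_succ, Nat.sub_add_cancel hQ1.le, h7, one_mul]
    exact mul_right_cancel₀ hu0 h11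
  · rw [norm_sub_rev]
    exact h5.trans_lt hw1

end Pool.Agent.KS6_3.ZR
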