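import Mathlib
import Pool.Agent.KS6_3.ZR.Teich

/-!
Value groups of finite extensions of `ℚ_p`; adjoining roots of unity of order prime to `p` does not
change them.
-/

set_option autoImplicit false
set_option linter.unusedSectionVars false

open Filter Topology Polynomial IntermediateField

namespace Pool.Agent.KS6_3.ZR

variable {p : ℕ} [Fact p.Prime] {L : Type*} [NormedField L] [NormedAlgebra ℚ_[p] L]

/-- The value group of a subfield. -/
def vg (E : IntermediateField ℚ_[p] L) : Subgroup ℝˣ where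
  carrier := {r | ∃ x ∈ E, ‖x‖ = (r : ℝ)}
  mul_mem' := by
    rintro a b ⟨x, hx, ha⟩ ⟨y, hy, hb⟩
    exact ⟨x * y, E.mul_mem hx hy, by rw [norm_mul, ha, hb, Units.val_mul]⟩
  one_mem' := ⟨1, E.one_mem, by simp⟩
  inv_mem' := by
    rintro a ⟨x, hx, ha⟩
    exact ⟨x⁻¹, E.inv_mem hx, by rw [norm_inv, ha, Units.val_inv_eq_inv_val]⟩

lemma mem_vg {E : IntermediateField ℚ_[p] L} {r : ℝˣ} : r ∈ vg E ↔ ∃ x ∈ E, ‖x‖ = (r : ℝ) := Iff.rfl

lemma vg_mono {E M : IntermediateField ℚ_[p] L} (h : E ≤ M) : vg E ≤ vg M := by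
  rintro r ⟨x, hx, hr⟩
  exact ⟨x, h hx, hr⟩

lemma norm_aut [Algebra.IsAlgebraic ℚ_[p] L] (σ : L ≃ₐ[ℚ_[p]] L) (x : L) : ‖σ x‖ = ‖x‖ := by
  rw [NormedAlgebra.norm_eq_spectralNorm ℚ_[p] (σ x), NormedAlgebra.norm_eq_spectralNorm ℚ_[p] x,
    ← spectralNorm_eq_of_equiv]

variable [IsUltrametricDist L]

omit [NormedAlgebra ℚ_[p] L] [Fact p.Prime] in
lemma int_mul {f g : L[X]} (hf : ∀ i, ‖f.coeff i‖ ≤ 1) (hg : ∀ i, ‖g.coeff i‖ ≤ 1) (i : ℕ) :
    ‖(f * g).coeff i‖ ≤ 1 := by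
  rw [coeff_mul]
  refine norm_sum_le _ _ zero_le_one fun q _ => ?_
  rw [norm_mul]
  exact mul_le_one₀ (hf _) (norm_nonneg _) (hg _)

omit [NormedAlgebra ℚ_[p] L] [Fact p.Prime] in
lemma int_prod {ι : Type*} (s : Finset ι) (f : ι → L[X]) (h : ∀ j ∈ s, ∀ i, ‖(f j).coeff i‖ ≤ 1) :
    ∀ i, ‖(∏ j ∈ s, f j).coeff i‖ ≤ 1 := by
  classical
  induction s using Finset.induction_on with
  | empty =>
    intro i
    rw [Finset.prod_empty, coeff_one]
    split_ifs <;> simp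
  | insert a s ha ih =>
    rw [Finset.prod_insert ha]
    exact int_mul (h a (Finset.mem_insert_self _ _))
      (ih fun j hj => h j (Finset.mem_insert_of_mem hj))

lemma coeff_le (s : Finset L) (hs : ∀ a ∈ s, ∀ b ∈ s, a ≠ b → ‖a - b‖ = 1)
    (hs1 : ∀ a ∈ s, ‖a‖ ≤ 1) (F : L[X]) (hdeg : F.degree < s.card) {C : ℝ} (hC0 : 0 ≤ C)
    (hC : ∀ a ∈ s, ‖F.eval a‖ ≤ C) (i : ℕ) : ‖F.coeff i‖ ≤ C := by
  classical
  have h1 := Lagrange.eq_interpolate (s := s) (v := id) (Set.injOn_id _) hdeg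
  rw [h1, Lagrange.interpolate_apply, finsetSum_coeff]
  refine norm_sum_le _ _ hC0 fun a ha => ?_
  rw [coeff_C_mul, norm_mul]
  have h2 : ‖(Lagrange.basis s id a).coeff i‖ ≤ 1 := by
    rw [Lagrange.basis]
    apply int_prod
    intro b hb j
    obtain ⟨hba, hb'⟩ := Finset.mem_erase.1 hb
    rw [Lagrange.basisDivisor, coeff_C_mul, norm_mul, norm_inv]
    have h3 : ‖id a - id b‖ = 1 := hs a ha b hb' (Ne.symm hba)
    rw [h3, inv_one, one_mul, coeff_sub, coeff_X, coeff_C]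
    by_cases hj0 : j = 0
    · subst hj0
      simpa using hs1 b hb'
    · rw [if_neg hj0, sub_zero]
      split_ifs <;> simp
  calc ‖F.eval (id a)‖ * ‖(Lagrange.basis s id a).coeff i‖ ≤ C * 1 :=
        mul_le_mul (hC a ha) h2 (norm_nonneg _) hC0
    _ = C := mul_one C

theorem vg_sup_root [FiniteDimensional ℚ_[p] L] [IsGalois ℚ_[p] L] (E : IntermediateField ℚ_[p] L)
    {u : L} {N : ℕ} (hN0 : N ≠ 0) (hN : N.Coprime p) (hu : u ^ N = 1) :
    vg (E ⊔ ℚ_[p]⟮u⟯) = vg E := by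
  classical
  refine le_antisymm ?_ (vg_mono le_sup_left)
  rintro r ⟨x, hx, hr⟩
  have hres : (E⟮u⟯).restrictScalars ℚ_[p] = E ⊔ ℚ_[p]⟮u⟯ := by
    rw [IntermediateField.restrictScalars_adjoin, IntermediateField.adjoin_union,
      IntermediateField.adjoin_self]
  have hint : IsIntegral E u := Algebra.IsIntegral.isIntegral u
  have hxM : x ∈ E⟮u⟯ := by
    rw [← IntermediateField.mem_restrictScalars (K := ℚ_[p]), hres]
    exact hx
  obtain ⟨f, hfdeg, hf⟩ := (IntermediateField.adjoin.powerBasis hint).exists_eq_aeval ⟨x, hxM⟩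
  rw [IntermediateField.adjoin.powerBasis_dim] at hfdeg
  rw [IntermediateField.adjoin.powerBasis_gen] at hf
  have hxf : x = aeval u f := by
    have h1 := congrArg (algebraMap E⟮u⟯ L) hf
    rw [← aeval_algebraMap_apply, AdjoinSimple.algebraMap_gen] at h1
    exact h1
  set P := minpoly E u with hP
  set s : Finset L := (P.rootSet L).toFinset with hs
  have hcard : s.card = P.natDegree := by
    rw [hs, Set.toFinset_card]
    exact card_rootSet_eq_natDegree (Algebra.IsSeparable.isSeparable E u)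
      (Normal.splits inferInstance u)
  have hPne : P ≠ 0 := minpoly.ne_zero hint
  have hroot : ∀ ν ∈ s, aeval ν P = 0 := by
    intro ν hν
    rw [hs, Set.mem_toFinset] at hν
    exact ((mem_rootSet_of_ne hPne).1 hν)
  have hPdvd : P ∣ X ^ N - 1 := by
    apply minpoly.dvd
    simp [hu]
  have hrootN : ∀ ν ∈ s, ν ^ N = 1 := by
    intro ν hν
    obtain ⟨Q, hQ⟩ := hPdvd
    have h2 := congrArg (aeval ν) hQ
    rw [map_mul, hroot ν hν, zero_mul] at h2
    simpa [sub_eq_zero] using h2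
  have hsdiff : ∀ a ∈ s, ∀ b ∈ s, a ≠ b → ‖a - b‖ = 1 := by
    intro a ha b hb hab
    have h3 : ‖a - b‖ ≤ 1 := by
      rw [sub_eq_add_neg]
      refine (IsUltrametricDist.norm_add_le_max _ _).trans (max_le ?_ ?_)
      · exact (norm_one_of_pow hN0 (hrootN a ha)).le
      · rw [norm_neg]
        exact (norm_one_of_pow hN0 (hrootN b hb)).le
    refine le_antisymm h3 (not_lt.1 fun h4 => hab ?_)
    exact root_eq (p := p) hN hN (hrootN a ha) (hrootN b hb) hN0 hN0 h4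
  have hs1 : ∀ a ∈ s, ‖a‖ ≤ 1 := fun a ha => (norm_one_of_pow hN0 (hrootN a ha)).le
  set F : L[X] := f.map (algebraMap E L) with hF
  have hFdeg : F.degree < s.card := by
    rw [hcard, hF, degree_map]
    by_cases hf0 : f = 0
    · rw [hf0, degree_zero]
      exact WithBot.bot_lt_coe _
    · rw [degree_eq_natDegree hf0]
      exact_mod_cast hfdeg
  have heval : ∀ a ∈ s, ‖F.eval a‖ ≤ ‖x‖ := by
    intro a ha
    obtain ⟨σ, hσ⟩ := minpoly.exists_algEquiv_of_root' (K := E) (L := L) (x := a) (y := u)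
      (Algebra.IsAlgebraic.isAlgebraic u) (hroot a ha)
    have h5 : F.eval a = σ x := by
      rw [hxf, hF, eval_map_algebraMap, ← hσ]
      exact aeval_algHom_apply (σ : L →ₐ[E] L) u f
    rw [h5]
    exact (norm_aut (p := p) (σ.restrictScalars ℚ_[p]) x).le
  -- comparison
  have hcoef : ∀ i, ‖F.coeff i‖ ≤ ‖x‖ := coeff_le s hsdiff hs1 F hFdeg (norm_nonneg _) heval
  have hx1 : x = ∑ i ∈ Finset.range (F.natDegree + 1), F.coeff i * u ^ i := by
    rw [← eval_eq_sum_range, hxf, hF, eval_map_algebraMap]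
  obtain ⟨i, _, hi⟩ := IsUltrametricDist.exists_norm_finsetSum_le_of_nonempty
    (t := Finset.range (F.natDegree + 1)) ⟨0, by simp⟩ (fun i => F.coeff i * u ^ i)
  have h6 : ‖x‖ ≤ ‖F.coeff i‖ := by
    refine le_trans (le_of_eq (congrArg norm hx1)) (hi.trans ?_)
    rw [norm_mul, norm_pow, norm_one_of_pow hN0 hu, one_pow, mul_one]
  refine ⟨F.coeff i, ?_, ?_⟩
  · rw [hF, coeff_map]
    exact (f.coeff i).2
  · rw [← hr]
    exact le_antisymm (hcoef i) h6

end Pool.Agent.KS6_3.ZR
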