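import Mathlib
import Pool.Agent.KS6_3.ZR.Vg

/-!
The fundamental identity for extensions with trivial residue extension.
-/

set_option autoImplicit false
set_option linter.unusedSectionVars false

open Filter Topology Polynomial IntermediateField

namespace Pool.Agent.KS6_3.ZR

variable {p : ℕ} [Fact p.Prime] {L : Type*} [NormedField L] [NormedAlgebra ℚ_[p] L]
  [IsUltrametricDist L]

omit [Fact p.Prime] [NormedAlgebra ℚ_[p] L] in
lemma sum_ne_zero_of_norm {ι : Type*} (s : Finset ι) (f : ι → L)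
    (hd : ∀ i ∈ s, ∀ j ∈ s, i ≠ j → f i ≠ 0 → f j ≠ 0 → ‖f i‖ ≠ ‖f j‖)
    (h0 : ∑ i ∈ s, f i = 0) : ∀ i ∈ s, f i = 0 := by
  classical
  by_contra hcon
  push Not at hcon
  obtain ⟨i, hi, hfi⟩ := hcon
  set t := s.filter (fun i => f i ≠ 0) with ht
  have hit : i ∈ t := by simp [ht, hi, hfi]
  have hsum : ∑ j ∈ t, f j = 0 := by
    rw [ht, Finset.sum_filter_ne_zero]
    exact h0
  have h1 := IsUltrametricDist.norm_sum_eq_sup'_of_pairwise_ne (s := t) (f := f) ⟨i, hit⟩ (by
    intro a ha b hb hab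
    rw [Finset.mem_coe, ht, Finset.mem_filter] at ha hb
    exact hd a ha.1 b hb.1 hab ha.2 hb.2)
  rw [hsum, norm_zero] at h1
  have h2 := Finset.le_sup' (fun i => ‖f i‖) hit
  rw [← h1] at h2
  exact hfi (norm_le_zero_iff.1 h2)

theorem fund [FiniteDimensional ℚ_[p] L] {E₁ E₂ : IntermediateField ℚ_[p] L} (h : E₁ ≤ E₂)
    (hres : ∀ x ∈ E₂, ‖x‖ = 1 → ∃ u ∈ E₁, ‖x - u‖ < 1) :
    Module.finrank ℚ_[p] E₂ = Module.finrank ℚ_[p] E₁ * (vg E₁).relIndex (vg E₂) := by
  classical
  have : ProperSpace L := FiniteDimensional.proper ℚ_[p] L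
  let ι := vg E₂ ⧸ (vg E₁).subgroupOf (vg E₂)
  have hrep : ∀ i : ι, ∃ x ∈ E₂, ‖x‖ = (((Quotient.out i : vg E₂) : ℝˣ) : ℝ) := fun i =>
    (Quotient.out i : vg E₂).2
  choose π hπ hπn using hrep
  have hπ0 : ∀ i, π i ≠ 0 := by
    intro i h0
    have h1 := hπn i
    rw [h0, norm_zero] at h1
    exact (((Quotient.out i : vg E₂) : ℝˣ)).ne_zero h1.symm
  have hcoset : ∀ i j : ι, ∀ a b : L, a ∈ E₁ → b ∈ E₁ → a ≠ 0 → b ≠ 0 →
      ‖a‖ * ‖π i‖ = ‖b‖ * ‖π j‖ → i = j := by
    intro i j a b ha hb ha0 hb0 heq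
    have hmem : ((Quotient.out i : vg E₂)⁻¹ * (Quotient.out j : vg E₂)) ∈
        (vg E₁).subgroupOf (vg E₂) := by
      rw [Subgroup.mem_subgroupOf]
      refine ⟨a * b⁻¹, E₁.mul_mem ha (E₁.inv_mem hb), ?_⟩
      rw [hπn i, hπn j] at heq
      have hnb : ‖b‖ ≠ 0 := norm_ne_zero_iff.2 hb0
      have hri : (((Quotient.out i : vg E₂) : ℝˣ) : ℝ) ≠ 0 := ((Quotient.out i : vg E₂) : ℝˣ).ne_zero
      rw [norm_mul, norm_inv]
      simp only [Subgroup.coe_mul, Subgroup.coe_inv, Units.val_mul, Units.val_inv_eq_inv_val]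
      field_simp
      linear_combination heq
    rw [← Quotient.out_eq i, ← Quotient.out_eq j]
    exact QuotientGroup.eq.2 hmem
  -- linear independence
  have hli : LinearIndependent E₁ π := by
    rw [linearIndependent_iff']
    intro s g hg i hi
    have h1 := sum_ne_zero_of_norm s (fun i => (g i : L) * π i) ?_ (by
      simpa [Algebra.smul_def] using hg) i hi
    · rcases mul_eq_zero.1 h1 with h2 | h2
      · exact_mod_cast h2
      · exact absurd h2 (hπ0 i)
    · intro a _ b _ hab ha hb heq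
      simp only [norm_mul] at heq
      exact hab (hcoset a b _ _ (g a).2 (g b).2 (left_ne_zero_of_mul ha) (left_ne_zero_of_mul hb) heq)
  have hfin : Finite ι := by
    have hfd : FiniteDimensional E₁ L := FiniteDimensional.right ℚ_[p] E₁ L
    exact LinearIndependent.finite_of_isNoetherian hli
  have hft : Fintype ι := Fintype.ofFinite ι
  -- span
  set V : Submodule E₁ L := Submodule.span E₁ (Set.range π) with hV
  let M : IntermediateField E₁ L := IntermediateField.extendScalars h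
  have hVM : V ≤ Subalgebra.toSubmodule M.toSubalgebra := by
    rw [hV, Submodule.span_le]
    rintro _ ⟨i, rfl⟩
    exact hπ i
  have hMV : Subalgebra.toSubmodule M.toSubalgebra ≤ V := by
    intro x hx
    have hx2 : x ∈ E₂ := hx
    by_contra hxV
    have hclosed : IsClosed (V : Set L) := by
      have := Submodule.closed_of_finiteDimensional (V.restrictScalars ℚ_[p])
      exact this
    obtain ⟨v₀, hv₀, hdist⟩ := hclosed.exists_infDist_eq_dist ⟨0, V.zero_mem⟩ x
    have hv₀2 : v₀ ∈ E₂ := hVM hv₀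
    set y := x - v₀ with hy
    have hy2 : y ∈ E₂ := E₂.sub_mem hx2 hv₀2
    have hy0 : y ≠ 0 := by
      intro h0
      apply hxV
      rw [sub_eq_zero.1 h0]
      exact hv₀
    -- the coset of the norm of `y`
    have hyn : ‖y‖ ≠ 0 := norm_ne_zero_iff.2 hy0
    let r : vg E₂ := ⟨Units.mk0 ‖y‖ hyn, ⟨y, hy2, rfl⟩⟩
    let i : ι := QuotientGroup.mk r
    have hri : ((Quotient.out i : vg E₂)⁻¹ * r) ∈ (vg E₁).subgroupOf (vg E₂) :=
      QuotientGroup.eq.1 (Quotient.out_eq i)
    rw [Subgroup.mem_subgroupOf] at hri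
    obtain ⟨a, ha, han⟩ := hri
    have han' : ‖a‖ * ‖π i‖ = ‖y‖ := by
      rw [han, hπn i]
      simp only [Subgroup.coe_mul, Subgroup.coe_inv, Units.val_mul, Units.val_inv_eq_inv_val, r,
        Units.val_mk0]
      have hri : (((Quotient.out i : vg E₂) : ℝˣ) : ℝ) ≠ 0 := ((Quotient.out i : vg E₂) : ℝˣ).ne_zero
      field_simp
    have ha0 : a ≠ 0 := by
      intro h0
      rw [h0, norm_zero, zero_mul] at han'
      exact hyn han'.symm
    have haπ : a * π i ≠ 0 := mul_ne_zero ha0 (hπ0 i)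
    obtain ⟨u, hu, hun⟩ := hres (y / (a * π i))
      (E₂.div_mem hy2 (E₂.mul_mem (h ha) (hπ i))) (by
        rw [norm_div, norm_mul, han', div_self hyn])
    have hlt : ‖y - u * (a * π i)‖ < ‖y‖ := by
      have h3 : y - u * (a * π i) = (y / (a * π i) - u) * (a * π i) := by
        rw [sub_mul, div_mul_cancel₀ _ haπ]
      rw [h3, norm_mul, norm_mul, han']
      calc ‖y / (a * π i) - u‖ * ‖y‖ < 1 * ‖y‖ :=
            mul_lt_mul_of_pos_right hun (norm_pos_iff.2 hy0)
        _ = ‖y‖ := one_mul _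
    have hmemV : v₀ + u * (a * π i) ∈ (V : Set L) := by
      refine V.add_mem hv₀ ?_
      have h4 : u * (a * π i) = ((⟨u, hu⟩ : E₁) * ⟨a, ha⟩ : E₁) • π i := by
        rw [Algebra.smul_def]
        show _ = ((u * a : L)) * π i
        ring
      rw [h4]
      exact V.smul_mem _ (Submodule.subset_span ⟨i, rfl⟩)
    have h5 := Metric.infDist_le_dist_of_mem (x := x) hmemV
    rw [hdist, dist_eq_norm, dist_eq_norm] at h5
    have h6 : x - (v₀ + u * (a * π i)) = y - u * (a * π i) := by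
      rw [hy]; ring
    rw [h6] at h5
    exact absurd hlt (not_lt.2 h5)
  have hVeq : V = Subalgebra.toSubmodule M.toSubalgebra := le_antisymm hVM hMV
  have h7 : Module.finrank E₁ M = Fintype.card ι := by
    rw [← finrank_span_eq_card hli, ← hV, hVeq]
    rfl
  have h8 : (vg E₁).relIndex (vg E₂) = Fintype.card ι := by
    rw [Subgroup.relIndex, Subgroup.index, Nat.card_eq_fintype_card]
  rw [h8, ← h7]
  exact (Module.finrank_mul_finrank ℚ_[p] E₁ M).symm

end Pool.Agent.KS6_3.ZR
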