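import Mathlib
import Pool.Agent.KS6_3.ZR.Fund

/-!
The inertia group and the wild inertia group of a finite Galois extension of `ℚ_p`.
-/

set_option autoImplicit false
set_option linter.unusedSectionVars false

open Filter Topology Polynomial IntermediateField

namespace Pool.Agent.KS6_3.ZR

variable {p : ℕ} [Fact p.Prime] {L : Type*} [NormedField L] [NormedAlgebra ℚ_[p] L]
  [IsUltrametricDist L]

/-- The roots of unity of order prime to `p`. -/
def rts (p : ℕ) (L : Type*) [Field L] : Set L := {u | ∃ N : ℕ, N ≠ 0 ∧ N.Coprime p ∧ u ^ N = 1}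

variable (p L) in
/-- The field generated by the roots of unity of order prime to `p`. -/
noncomputable def WF : IntermediateField ℚ_[p] L := IntermediateField.adjoin ℚ_[p] (rts p L)

lemma mem_WF {u : L} {N : ℕ} (h0 : N ≠ 0) (hc : N.Coprime p) (hu : u ^ N = 1) : u ∈ WF p L :=
  IntermediateField.subset_adjoin _ _ ⟨N, h0, hc, hu⟩

/-- The ramification index of a subfield. -/
noncomputable def ram (E : IntermediateField ℚ_[p] L) : ℕ :=
  (vg (⊥ : IntermediateField ℚ_[p] L)).relIndex (vg E)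

variable [FiniteDimensional ℚ_[p] L] [IsGalois ℚ_[p] L]

lemma vg_sup_finset (E : IntermediateField ℚ_[p] L) (T : Finset L) (hT : (T : Set L) ⊆ rts p L) :
    vg (E ⊔ IntermediateField.adjoin ℚ_[p] (T : Set L)) = vg E := by
  classical
  induction T using Finset.induction_on with
  | empty =>
    rw [Finset.coe_empty, IntermediateField.adjoin_empty, sup_bot_eq]
  | insert a s ha ih =>
    rw [Finset.coe_insert, Set.insert_eq, IntermediateField.adjoin_union, sup_comm (ℚ_[p]⟮a⟯),
      ← sup_assoc]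
    obtain ⟨N, h0, hc, hN⟩ := hT (Finset.mem_coe.2 (Finset.mem_insert_self a s))
    rw [vg_sup_root _ h0 hc hN]
    exact ih fun x hx => hT (Finset.mem_coe.2 (Finset.mem_insert_of_mem (Finset.mem_coe.1 hx)))

theorem vg_sup_WF (E : IntermediateField ℚ_[p] L) : vg (E ⊔ WF p L) = vg E := by
  classical
  refine le_antisymm ?_ (vg_mono le_sup_left)
  rintro r ⟨x, hx, hr⟩
  have h1 : E ⊔ WF p L = IntermediateField.adjoin ℚ_[p] ((E : Set L) ∪ rts p L) := by
    rw [IntermediateField.adjoin_union, IntermediateField.adjoin_self]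
    rfl
  rw [h1] at hx
  obtain ⟨T, hT, hxT⟩ := IntermediateField.exists_finset_of_mem_adjoin hx
  have h2 : IntermediateField.adjoin ℚ_[p] (T : Set L) ≤
      E ⊔ IntermediateField.adjoin ℚ_[p] ((T.filter (· ∈ rts p L) : Finset L) : Set L) := by
    rw [IntermediateField.adjoin_le_iff]
    intro y hy
    rcases hT hy with h3 | h3
    · exact (le_sup_left : E ≤ _) h3
    · refine (le_sup_right : _ ≤ E ⊔ _) (IntermediateField.subset_adjoin _ _ ?_)
      simp only [Finset.coe_filter, Set.mem_ofPred_eq]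
      exact ⟨hy, h3⟩
  rw [← vg_sup_finset E (T.filter (· ∈ rts p L)) (fun y hy => by
    simp only [Finset.coe_filter, Set.mem_ofPred_eq] at hy
    exact hy.2)]
  exact ⟨x, h2 hxT, hr⟩

theorem finrank_sup_WF (E : IntermediateField ℚ_[p] L) :
    Module.finrank ℚ_[p] (WF p L ⊔ E : IntermediateField ℚ_[p] L) =
      Module.finrank ℚ_[p] (WF p L) * ram E := by
  rw [fund (le_sup_left : WF p L ≤ WF p L ⊔ E)]
  · have h1 : vg (WF p L) = vg (⊥ : IntermediateField ℚ_[p] L) := by
      have h2 := vg_sup_WF (⊥ : IntermediateField ℚ_[p] L)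
      rwa [bot_sup_eq] at h2
    rw [h1, sup_comm, vg_sup_WF, ram]
  · intro x _ hx
    obtain ⟨u, N, h0, hc, hN, hlt⟩ := exists_teich (p := p) hx
    exact ⟨u, mem_WF h0 hc hN, hlt⟩

/-- The index of the stabilizer in the inertia group is the ramification index. -/
theorem relIndex_inertia (E : IntermediateField ℚ_[p] L) :
    (E.fixingSubgroup).relIndex (WF p L).fixingSubgroup = ram E := by
  have h1 := finrank_sup_WF E
  rw [IntermediateField.finrank_eq_fixingSubgroup_index,
    IntermediateField.finrank_eq_fixingSubgroup_index, IntermediateField.fixingSubgroup_sup] at h1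
  have h2 : ((WF p L).fixingSubgroup ⊓ E.fixingSubgroup).relIndex (WF p L).fixingSubgroup *
      ((WF p L).fixingSubgroup).index = ((WF p L).fixingSubgroup ⊓ E.fixingSubgroup).index :=
    Subgroup.relIndex_mul_index inf_le_left
  rw [inf_comm, Subgroup.inf_relIndex_right, inf_comm, h1, mul_comm] at h2
  have h3 : ((WF p L).fixingSubgroup).index ≠ 0 := Subgroup.index_ne_zero_of_finite
  exact mul_left_cancel₀ h3 h2

variable (p L) in
/-- The wild inertia group. -/
def PI : Subgroup (L ≃ₐ[ℚ_[p]] L) where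
  carrier := {σ | ∀ x : L, x ≠ 0 → ‖σ x - x‖ < ‖x‖}
  mul_mem' := by
    intro σ τ hσ hτ x hx
    have h1 : τ x ≠ 0 := by simpa using hx
    have h2 := hσ (τ x) h1
    rw [norm_aut] at h2
    exact norm_sub_lt h2 (hτ x hx)
  one_mem' := by
    intro x hx
    simpa using hx
  inv_mem' := by
    intro σ hσ x hx
    have h1 : σ⁻¹ x ≠ 0 := by simpa using hx
    have h2 := hσ (σ⁻¹ x) h1
    have h3 : σ (σ⁻¹ x) = x := by
      rw [← AlgEquiv.mul_apply, mul_inv_cancel, AlgEquiv.one_apply]
    rw [h3, norm_aut, norm_sub_rev] at h2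
    exact h2

lemma mem_PI {σ : L ≃ₐ[ℚ_[p]] L} : σ ∈ PI p L ↔ ∀ x : L, x ≠ 0 → ‖σ x - x‖ < ‖x‖ := Iff.rfl

instance PI_normal : (PI p L).Normal := by
  constructor
  intro σ hσ τ x hx
  have h1 : τ⁻¹ x ≠ 0 := by simpa using hx
  have h2 := hσ (τ⁻¹ x) h1
  have h3 : τ (τ⁻¹ x) = x := by
    rw [← AlgEquiv.mul_apply, mul_inv_cancel, AlgEquiv.one_apply]
  have h4 : (τ * σ * τ⁻¹) x - x = τ (σ (τ⁻¹ x) - τ⁻¹ x) := by
    rw [map_sub, h3]
    rfl
  rw [h4, norm_aut]
  rwa [norm_aut] at h2

lemma PI_le : PI p L ≤ (WF p L).fixingSubgroup := by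
  intro σ hσ
  rw [WF, IntermediateField.mem_fixingSubgroup_iff]
  intro x hx
  have h1 : WF p L ≤ IntermediateField.fixedField (Subgroup.zpowers σ) := by
    rw [WF, IntermediateField.adjoin_le_iff]
    rintro u ⟨N, h0, hc, hN⟩
    have hfix : σ u = u := by
      have hu0 : u ≠ 0 := by
        rintro rfl
        rw [zero_pow h0] at hN
        exact zero_ne_one hN
      have h2 := hσ u hu0
      rw [norm_one_of_pow h0 hN] at h2
      refine root_eq (p := p) hc hc ?_ hN h0 h0 h2
      rw [← map_pow, hN, map_one]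
    rintro ⟨τ, hτ⟩
    obtain ⟨n, rfl⟩ := Subgroup.mem_zpowers_iff.1 hτ
    show (σ ^ n) u = u
    have h3 : σ ∈ MulAction.stabilizer (L ≃ₐ[ℚ_[p]] L) u := hfix
    exact (Subgroup.zpow_mem _ h3 n)
  have h4 := h1 hx
  exact h4 ⟨σ, Subgroup.mem_zpowers σ⟩

end Pool.Agent.KS6_3.ZR
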