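import Mathlib
import Pool.Agent.KS6_3.ZR.Iner

/-!
The wild inertia group is the set of the elements of `p`-power order of the inertia group; powers of its
elements fix the elements `α` for which the ramification index of `ℚ_p(α)` is not divisible by a large
power of `p`.
-/

set_option autoImplicit false
set_option linter.unusedSectionVars false

open Filter Topology Polynomial IntermediateField

namespace Pool.Agent.KS6_3.ZR

variable {p : ℕ} [Fact p.Prime] {L : Type*} [NormedField L] [NormedAlgebra ℚ_[p] L]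
  [IsUltrametricDist L] [FiniteDimensional ℚ_[p] L] [IsGalois ℚ_[p] L]

/-- An element of prime order of the wild inertia group has order `p`. -/
lemma PI_prime {σ : L ≃ₐ[ℚ_[p]] L} (hσ : σ ∈ PI p L) {l : ℕ} (hl : l.Prime)
    (ho : orderOf σ = l) : l = p := by
  by_contra hne
  have hp : p.Prime := Fact.out
  have hc : l.Coprime p := (Nat.coprime_primes hl hp).2 hne
  have hone : σ = 1 := by
    ext x
    show σ x = x
    -- the trace zero part
    set T := ∑ i ∈ Finset.range l, (σ ^ i) x with hT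
    have hσT : σ T = T := by
      have h1 : σ T = ∑ i ∈ Finset.range l, (σ ^ (i + 1)) x := by
        rw [hT, map_sum]
        refine Finset.sum_congr rfl fun i _ => ?_
        rw [pow_succ', AlgEquiv.mul_apply]
      have h2 := Finset.sum_range_succ' (fun i => (σ ^ i) x) l
      have h3 := Finset.sum_range_succ (fun i => (σ ^ i) x) l
      rw [h3] at h2
      have h4 : (σ ^ l) x = (σ ^ 0) x := by
        rw [← ho, pow_orderOf_eq_one, pow_zero]
      rw [h4] at h2
      rw [h1]
      exact (add_right_cancel h2).symm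
    have hl0 : (l : L) ≠ 0 := by
      intro h0
      have h5 := norm_coprime (p := p) (L := L) hc
      rw [h0, norm_zero] at h5
      exact zero_ne_one h5
    set y := (l : L) * x - T with hy
    have hpow : ∀ i, (σ ^ i) T = T := by
      intro i
      induction i with
      | zero => rfl
      | succ i ih => rw [pow_succ', AlgEquiv.mul_apply, ih, hσT]
    have hsum : ∑ i ∈ Finset.range l, (σ ^ i) y = 0 := by
      have h6 : ∀ i ∈ Finset.range l, (σ ^ i) y = (l : L) * (σ ^ i) x - T := by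
        intro i _
        rw [hy, map_sub, map_mul, map_natCast, hpow]
      rw [Finset.sum_congr rfl h6, Finset.sum_sub_distrib, ← Finset.mul_sum, ← hT,
        Finset.sum_const, Finset.card_range, nsmul_eq_mul, sub_self]
    have hy0 : y = 0 := by
      by_contra hy0
      have h7 : ∀ i ∈ Finset.range l, ‖(σ ^ i) y - y‖ < ‖y‖ := fun i _ =>
        (Subgroup.pow_mem _ hσ i) y hy0
      have h8 : (l : L) * y = -∑ i ∈ Finset.range l, ((σ ^ i) y - y) := by
        rw [Finset.sum_sub_distrib, hsum, Finset.sum_const, Finset.card_range, nsmul_eq_mul]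
        ring
      have h9 : ‖(l : L) * y‖ < ‖y‖ := by
        rw [h8, norm_neg]
        exact norm_sum_lt _ _ (norm_pos_iff.2 hy0) h7
      rw [norm_mul, norm_coprime (p := p) hc, one_mul] at h9
      exact lt_irrefl _ h9
    have h10 : (l : L) * x = T := sub_eq_zero.1 hy0
    have h11 : (l : L) * σ x = (l : L) * x := by
      rw [h10, ← hσT, ← h10, map_mul, map_natCast]
    exact mul_left_cancel₀ hl0 h11
  rw [hone, orderOf_one] at ho
  exact hl.one_lt.ne ho

/-- The wild inertia group is a `p`-group. -/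
theorem PI_card : ∃ s : ℕ, Nat.card (PI p L) = p ^ s := by
  have hfin : Finite (PI p L) := inferInstance
  have hpos : Nat.card (PI p L) ≠ 0 := Nat.card_pos.ne'
  refine ⟨_, Nat.eq_prime_pow_of_unique_prime_dvd hpos ?_⟩
  intro l hl hdvd
  have hlF : Fact l.Prime := ⟨hl⟩
  obtain ⟨σ, hσ⟩ := exists_prime_orderOf_dvd_card' l hdvd
  apply PI_prime σ.2 hl
  rw [← hσ]
  exact Subgroup.orderOf_coe σ

/-- An element of `p`-power order of the inertia group belongs to the wild inertia group. -/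
theorem mem_PI_of_order {σ : L ≃ₐ[ℚ_[p]] L} (hσ : σ ∈ (WF p L).fixingSubgroup) {s : ℕ}
    (hs : σ ^ p ^ s = 1) : σ ∈ PI p L := by
  intro x hx
  have hxn : ‖x‖ ≠ 0 := norm_ne_zero_iff.2 hx
  have hfix : ∀ u ∈ WF p L, σ u = u := by
    rw [IntermediateField.mem_fixingSubgroup_iff] at hσ
    exact hσ
  -- the inertia group acts trivially on the residue field
  have hres : ∀ y : L, ‖y‖ = 1 → ‖σ y - y‖ < 1 := by
    intro y hy
    obtain ⟨u, N, h0, hc, hN, hlt⟩ := exists_teich (p := p) hy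
    have h1 : ‖σ y - σ u‖ < 1 := by rw [← map_sub, norm_aut]; exact hlt
    rw [hfix u (mem_WF h0 hc hN)] at h1
    exact norm_sub_lt h1 (by rw [norm_sub_rev]; exact hlt)
  set y := σ x / x with hy
  have hyn : ‖y‖ = 1 := by rw [hy, norm_div, norm_aut, div_self hxn]
  have hσx : σ x = y * x := by rw [hy, div_mul_cancel₀ _ hx]
  have hiter : ∀ k : ℕ, ‖(σ ^ k) x - y ^ k * x‖ < ‖x‖ := by
    intro k
    induction k with
    | zero => simpa using hx
    | succ k ih =>
      have h2 : (σ ^ (k + 1)) x = σ ((σ ^ k) x) := by rw [pow_succ', AlgEquiv.mul_apply]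
      have h3 : ‖σ ((σ ^ k) x) - σ (y ^ k * x)‖ < ‖x‖ := by rw [← map_sub, norm_aut]; exact ih
      rw [h2]
      refine norm_sub_lt h3 ?_
      have h4 : σ (y ^ k * x) - y ^ (k + 1) * x = (σ (y ^ k) - y ^ k) * (y * x) := by
        rw [map_mul, hσx]
        ring
      rw [h4, norm_mul, norm_mul, hyn, one_mul]
      have h5 : ‖σ (y ^ k) - y ^ k‖ < 1 := hres (y ^ k) (by rw [norm_pow, hyn, one_pow])
      calc ‖σ (y ^ k) - y ^ k‖ * ‖x‖ < 1 * ‖x‖ :=
            mul_lt_mul_of_pos_right h5 (norm_pos_iff.2 hx)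
        _ = ‖x‖ := one_mul _
  have h6 := hiter (p ^ s)
  rw [hs, AlgEquiv.one_apply] at h6
  have h7 : x - y ^ p ^ s * x = -((y ^ p ^ s - 1) * x) := by ring
  rw [h7, norm_neg, norm_mul] at h6
  have h8 : ‖y ^ p ^ s - 1‖ < 1 := by
    by_contra hcon
    push Not at hcon
    have := mul_le_mul_of_nonneg_right hcon (norm_nonneg x)
    rw [one_mul] at this
    exact absurd h6 (not_lt.2 this)
  have h9 : ‖y - 1‖ < 1 := pow_pp_one (p := p) hyn.le h8
  have h10 : σ x - x = (y - 1) * x := by rw [hσx]; ring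
  rw [h10, norm_mul]
  calc ‖y - 1‖ * ‖x‖ < 1 * ‖x‖ := mul_lt_mul_of_pos_right h9 (norm_pos_iff.2 hx)
    _ = ‖x‖ := one_mul _

/-- For a normal subgroup `P` of `p`-power order, contained in `I`. -/
lemma relIndex_dvd_aux {G : Type*} [Group G] [Finite G] (P I H : Subgroup G) [P.Normal] (hPI : P ≤ I) :
    H.relIndex P ∣ H.relIndex I := by
  set J := H ⊓ I with hJ
  have h1 : J.relIndex I = H.relIndex I := Subgroup.inf_relIndex_right H I
  have h2 : J.relIndex P = H.relIndex P := by
    have h3 : J ⊓ P = H ⊓ P := by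
      rw [hJ, inf_assoc, inf_eq_right.2 hPI]
    rw [← Subgroup.inf_relIndex_right J P, h3, Subgroup.inf_relIndex_right]
  have hJI : J ≤ I := inf_le_right
  have h4 : J.relIndex (J ⊔ P) * (J ⊔ P).relIndex I = J.relIndex I :=
    Subgroup.relIndex_mul_relIndex _ _ _ le_sup_left (sup_le hJI hPI)
  -- `[J P : J] = [P : J ∩ P]`
  have h5 : J.relIndex (J ⊔ P) = J.relIndex P := by
    have h6 : P.relIndex (J ⊔ P) = P.relIndex J := Subgroup.relIndex_sup_right J P
    have e1 : (J ⊓ P).relIndex J * J.relIndex (J ⊔ P) = (J ⊓ P).relIndex (J ⊔ P) :=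
      Subgroup.relIndex_mul_relIndex _ _ _ inf_le_left le_sup_left
    have e2 : (J ⊓ P).relIndex P * P.relIndex (J ⊔ P) = (J ⊓ P).relIndex (J ⊔ P) :=
      Subgroup.relIndex_mul_relIndex _ _ _ inf_le_right le_sup_right
    have e3 : (J ⊓ P).relIndex J = P.relIndex J := by
      rw [inf_comm]
      exact Subgroup.inf_relIndex_right P J
    have e4 : (J ⊓ P).relIndex P = J.relIndex P := Subgroup.inf_relIndex_right J P
    rw [e3] at e1
    rw [e4, h6] at e2
    have h7 : P.relIndex J ≠ 0 := Subgroup.index_ne_zero_of_finite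
    apply mul_left_cancel₀ h7
    rw [e1, ← e2, mul_comm]
  rw [← h1, ← h2, ← h4, h5]
  exact dvd_mul_right _ _

/-- **Powers of wild elements fix `α` if the ramification index of `ℚ_p(α)` is not divisible by a large
power of `p`.** -/
theorem pow_fix {σ : L ≃ₐ[ℚ_[p]] L} (hσ : σ ∈ PI p L) (α : L) (j : ℕ)
    (hj : ¬ p ^ (j + 1) ∣ ram (ℚ_[p]⟮α⟯)) : (σ ^ p ^ j) α = α := by
  have hp : p.Prime := Fact.out
  set H := (ℚ_[p]⟮α⟯).fixingSubgroup with hH
  have h1 : H.relIndex (PI p L) ∣ ram (ℚ_[p]⟮α⟯) := by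
    rw [← relIndex_inertia]
    exact relIndex_dvd_aux _ _ _ PI_le
  obtain ⟨s, hs⟩ := PI_card (p := p) (L := L)
  have h2 : H.relIndex (PI p L) ∣ p ^ s := by
    rw [← hs]
    exact Subgroup.relIndex_dvd_card H (PI p L)
  obtain ⟨b, _, hb⟩ := (Nat.dvd_prime_pow hp).1 h2
  have hbj : b ≤ j := by
    by_contra hcon
    push Not at hcon
    apply hj
    refine dvd_trans (pow_dvd_pow p hcon) ?_
    rw [← hb]
    exact h1
  have hne : H.relIndex (PI p L) ≠ 0 := by rw [hb]; exact pow_ne_zero _ hp.ne_zero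
  obtain ⟨n, hn0, hnle, hn⟩ := Subgroup.exists_pow_mem_of_relIndex_ne_zero hne hσ
  have hnH : σ ^ n ∈ H := (Subgroup.mem_inf.1 hn).1
  -- the order of `σ`
  have hord : σ ^ p ^ s = 1 := by
    rw [← hs]
    have h3 : (⟨σ, hσ⟩ : PI p L) ^ Nat.card (PI p L) = 1 := pow_card_eq_one'
    have h4 := congrArg (fun t : PI p L => (t : L ≃ₐ[ℚ_[p]] L)) h3
    rw [Subgroup.coe_pow, Subgroup.coe_one] at h4
    exact h4
  have hgcd : σ ^ Nat.gcd n (p ^ s) ∈ H := by
    have h5 : ((σ : L ≃ₐ[ℚ_[p]] L) ^ (Nat.gcd n (p ^ s) : ℤ)) =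
        (σ ^ n) ^ (Nat.gcdA n (p ^ s)) * (σ ^ p ^ s) ^ (Nat.gcdB n (p ^ s)) := by
      rw [Nat.gcd_eq_gcd_ab, zpow_add, zpow_mul, zpow_mul, zpow_natCast, zpow_natCast]
    rw [hord, one_zpow, mul_one] at h5
    rw [← zpow_natCast, h5]
    exact Subgroup.zpow_mem _ hnH _
  obtain ⟨i, _, hi⟩ := (Nat.dvd_prime_pow hp).1 (Nat.gcd_dvd_right n (p ^ s))
  have hij : i ≤ j := by
    have h6 : p ^ i ≤ p ^ b := by
      rw [← hi, ← hb]
      exact (Nat.gcd_le_left _ hn0).trans hnle
    exact ((Nat.pow_le_pow_iff_right hp.one_lt).1 h6).trans hbj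
  rw [hi] at hgcd
  have h7 : σ ^ p ^ j ∈ H := by
    have h8 : p ^ j = p ^ i * p ^ (j - i) := by rw [← pow_add, Nat.add_sub_cancel' hij]
    rw [h8, pow_mul]
    exact Subgroup.pow_mem _ hgcd _
  rw [hH, IntermediateField.mem_fixingSubgroup_iff] at h7
  exact h7 α (IntermediateField.mem_adjoin_simple_self _ _)

end Pool.Agent.KS6_3.ZR
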