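import Mathlib
import Pool.Agent.KS6_3.ZR.Wild

/-!
Elements of the wild inertia group with a given action on the roots of unity of order `p ^ n`.
-/

set_option autoImplicit false
set_option linter.unusedSectionVars false

open Filter Topology Polynomial IntermediateField

namespace Pool.Agent.KS6_3.ZR

variable {p : ℕ} [Fact p.Prime] {L : Type*} [NormedField L] [NormedAlgebra ℚ_[p] L]
  [IsUltrametricDist L] [FiniteDimensional ℚ_[p] L] [IsGalois ℚ_[p] L]

theorem exists_wild {n : ℕ} {z : L} (hz : IsPrimitiveRoot z (p ^ n))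
    (hram : ram ℚ_[p]⟮z⟯ = Nat.totient (p ^ n)) {c : ℕ} (hc : c ≡ 1 [MOD p]) :
    ∃ σ ∈ PI p L, σ z = z ^ c := by
  classical
  have hp : p.Prime := Fact.out
  rcases Nat.eq_zero_or_pos n with rfl | hn
  · refine ⟨1, Subgroup.one_mem _, ?_⟩
    have h1 : z = 1 := by simpa using hz
    rw [h1, map_one, one_pow]
  have hne : NeZero (p ^ n) := ⟨pow_ne_zero _ hp.ne_zero⟩
  have h1n : 1 < p ^ n := Nat.one_lt_pow hn.ne' hp.one_lt
  set I := (WF p L).fixingSubgroup with hI
  set f := hz.autToPow ℚ_[p] with hf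
  have hspec : ∀ σ, z ^ ((f σ : (ZMod (p ^ n))ˣ) : ZMod (p ^ n)).val = σ z := fun σ =>
    hz.autToPow_spec ℚ_[p] σ
  have hker : f.ker = (ℚ_[p]⟮z⟯).fixingSubgroup := by
    ext σ
    rw [MonoidHom.mem_ker, IntermediateField.mem_fixingSubgroup_iff]
    constructor
    · intro h
      have h2 : σ z = z := by
        rw [← hspec σ, h, Units.val_one]
        have : Fact (1 < p ^ n) := ⟨h1n⟩
        rw [ZMod.val_one, pow_one]
      have h3 : ℚ_[p]⟮z⟯ ≤ IntermediateField.fixedField (Subgroup.zpowers σ) := by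
        rw [IntermediateField.adjoin_le_iff]
        rintro _ rfl
        rintro ⟨τ, hτ⟩
        obtain ⟨m, rfl⟩ := Subgroup.mem_zpowers_iff.1 hτ
        have h4 : σ ∈ MulAction.stabilizer (L ≃ₐ[ℚ_[p]] L) _ := h2
        exact Subgroup.zpow_mem _ h4 m
      intro x hx
      exact h3 hx ⟨σ, Subgroup.mem_zpowers σ⟩
    · intro h
      have h2 := h z (IntermediateField.mem_adjoin_simple_self _ _)
      have h3 := hspec σ
      rw [h2] at h3
      have h4 := hz.pow_inj (ZMod.val_lt _) h1n (h3.trans (pow_one z).symm)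
      ext
      rw [Units.val_one]
      apply ZMod.val_injective
      have : Fact (1 < p ^ n) := ⟨h1n⟩
      rw [h4, ZMod.val_one]
  -- the restriction to the inertia group is surjective
  let g : I →* (ZMod (p ^ n))ˣ := f.comp I.subtype
  have hgker : g.ker = (f.ker).subgroupOf I := rfl
  have hcard : Nat.card g.range = Nat.totient (p ^ n) := by
    rw [← Subgroup.index_ker, hgker, hker]
    show ((ℚ_[p]⟮z⟯).fixingSubgroup).relIndex I = _
    rw [hI, relIndex_inertia, hram]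
  have htop : g.range = ⊤ := by
    apply Subgroup.eq_top_of_card_eq
    rw [hcard, Nat.card_eq_fintype_card, ZMod.card_units_eq_totient]
  have hcop : Nat.Coprime c (p ^ n) := by
    apply Nat.Coprime.pow_right
    rw [Nat.coprime_comm, Nat.Prime.coprime_iff_not_dvd hp]
    intro h
    have h2 : (1 : ℕ) ≡ 0 [MOD p] := hc.symm.trans ((Nat.modEq_zero_iff_dvd).2 h)
    exact hp.one_lt.ne' (Nat.dvd_one.1 ((Nat.modEq_zero_iff_dvd).1 h2))
  obtain ⟨τ, hτ⟩ : ∃ τ : I, g τ = ZMod.unitOfCoprime c hcop := by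
    have h2 : ZMod.unitOfCoprime c hcop ∈ g.range := by rw [htop]; exact Subgroup.mem_top _
    exact h2
  -- the `p`-part
  have ho : orderOf (τ : L ≃ₐ[ℚ_[p]] L) ≠ 0 := (orderOf_pos _).ne'
  obtain ⟨a, b, hb, hab⟩ := Nat.exists_eq_pow_mul_and_not_dvd ho p hp.ne_one
  have hbc : Nat.Coprime b (p ^ n) := by
    apply Nat.Coprime.pow_right
    rw [Nat.coprime_comm]
    exact (Nat.Prime.coprime_iff_not_dvd hp).2 hb
  obtain ⟨b', hb'⟩ : ∃ b', b * b' ≡ 1 [MOD p ^ n] := by
    obtain ⟨m, _, hm⟩ := Nat.exists_mul_mod_eq_one_of_coprime hbc h1n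
    refine ⟨m, ?_⟩
    show b * m % p ^ n = 1 % p ^ n
    rw [hm, Nat.mod_eq_of_lt h1n]
  refine ⟨(τ : L ≃ₐ[ℚ_[p]] L) ^ (b * b'), ?_, ?_⟩
  · apply mem_PI_of_order (s := a)
    · exact Subgroup.pow_mem _ τ.2 _
    · rw [← pow_mul]
      have h3 : b * b' * p ^ a = orderOf (τ : L ≃ₐ[ℚ_[p]] L) * b' := by rw [hab]; ring
      rw [h3, pow_mul, pow_orderOf_eq_one, one_pow]
  · rw [← hspec, map_pow]
    have h3 : f (τ : L ≃ₐ[ℚ_[p]] L) = ZMod.unitOfCoprime c hcop := hτ
    rw [h3]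
    have h4 : (ZMod.unitOfCoprime c hcop) ^ p ^ n = 1 := by
      ext
      rw [Units.val_pow_eq_pow_val, ZMod.coe_unitOfCoprime, Units.val_one]
      have h5 : (p : ℤ) ∣ (c : ℤ) - 1 := by
        have := (Int.natCast_modEq_iff.2 hc.symm)
        rw [Int.modEq_iff_dvd] at this
        exact_mod_cast this
      have h6 := dvd_sub_pow_of_dvd_sub h5 n
      rw [one_pow] at h6
      have h7 : ((p ^ n : ℕ) : ℤ) ∣ (c : ℤ) ^ p ^ n - 1 := by
        refine dvd_trans ?_ h6
        push_cast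
        exact pow_dvd_pow _ (Nat.le_succ n)
      have h8 : (((c : ℤ) ^ p ^ n - 1 : ℤ) : ZMod (p ^ n)) = 0 :=
        (ZMod.intCast_zmod_eq_zero_iff_dvd _ _).2 h7
      push_cast at h8
      exact sub_eq_zero.1 h8
    have h5 : (ZMod.unitOfCoprime c hcop) ^ (b * b') = ZMod.unitOfCoprime c hcop := by
      have h6 : (ZMod.unitOfCoprime c hcop) ^ (b * b') = (ZMod.unitOfCoprime c hcop) ^ 1 := by
        rw [pow_eq_pow_iff_modEq]
        exact hb'.of_dvd (orderOf_dvd_of_pow_eq_one h4)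
      rw [h6, pow_one]
    rw [h5, ZMod.coe_unitOfCoprime, ZMod.val_natCast]
    rw [hz.eq_orderOf, pow_mod_orderOf]

end Pool.Agent.KS6_3.ZR
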