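import Mathlib
import Pool.Agent.KS6_3.ZR.Cyc
import Pool.Agent.KS6_3.ZL.Y701.ZT.Exact

/-!
Wild automorphisms of finite Galois extensions of `ℚ_p` inside `ℂ_p`.
-/

set_option autoImplicit false
set_option linter.unusedSectionVars false

open Filter Topology Polynomial IntermediateField

namespace Pool.Agent.KS6_3.ZR

open Pool.Agent.H707R3

variable {p : ℕ} [Fact p.Prime]

lemma vg_eq (Ω : IntermediateField ℚ_[p] ℂ_[p]) (E : IntermediateField ℚ_[p] Ω) :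
    vg E = valGroup (E.map Ω.val) := by
  ext r
  rw [mem_vg, mem_valGroup]
  constructor
  · rintro ⟨x, hx, hr⟩
    exact ⟨(x : ℂ_[p]), ⟨x, hx, rfl⟩, hr⟩
  · rintro ⟨y, ⟨x, hx, rfl⟩, hr⟩
    exact ⟨x, hx, hr⟩

lemma ram_eq (Ω : IntermediateField ℚ_[p] ℂ_[p]) (α : Ω) :
    ram (ℚ_[p]⟮α⟯ : IntermediateField ℚ_[p] Ω) = ramIdx ℚ_[p]⟮(α : ℂ_[p])⟯ := by
  rw [ram, ramIdx, vg_eq, vg_eq, IntermediateField.map_bot, IntermediateField.adjoin_map,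
    Set.image_singleton]
  rfl

/-- A finite Galois extension of `ℚ_p` in `ℂ_p` containing given algebraic elements. -/
lemma exists_galois (A : Multiset ℂ_[p]) (hA : ∀ α ∈ A, IsIntegral ℚ_[p] α) :
    ∃ Ω : IntermediateField ℚ_[p] ℂ_[p], FiniteDimensional ℚ_[p] Ω ∧ IsGalois ℚ_[p] Ω ∧
      ∀ α ∈ A, α ∈ Ω := by
  classical
  set P : ℚ_[p][X] := (A.map fun α => minpoly ℚ_[p] α).prod with hP
  have hP0 : P ≠ 0 := by
    rw [hP]
    apply Multiset.prod_ne_zero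
    intro h
    obtain ⟨α, hα, h0⟩ := Multiset.mem_map.1 h
    exact minpoly.ne_zero (hA α hα) h0
  have hspl : (P.map (algebraMap ℚ_[p] ℂ_[p])).Splits := IsAlgClosed.splits _
  have hsf := IntermediateField.adjoin_rootSet_isSplittingField hspl
  refine ⟨IntermediateField.adjoin ℚ_[p] (P.rootSet ℂ_[p]), ?_, ?_, ?_⟩
  · exact Polynomial.IsSplittingField.finiteDimensional _ P
  · have := Normal.of_isSplittingField (F := ℚ_[p])
      (E := IntermediateField.adjoin ℚ_[p] (P.rootSet ℂ_[p])) P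
    exact ⟨⟩
  · intro α hα
    apply IntermediateField.subset_adjoin
    rw [mem_rootSet_of_ne hP0]
    have hdvd : minpoly ℚ_[p] α ∣ P := by
      rw [hP]
      exact Multiset.dvd_prod (Multiset.mem_map_of_mem _ hα)
    obtain ⟨Q, hQ⟩ := hdvd
    rw [hQ, map_mul, minpoly.aeval, zero_mul]

/-- **Wild automorphisms.** -/
theorem exists_auto {n : ℕ} (hn : n ≠ 0) {z : ℂ_[p]} (hz : IsPrimitiveRoot z (p ^ n)) {c : ℕ}
    (hc : c ≡ 1 [MOD p]) (A : Multiset ℂ_[p]) (hA : ∀ α ∈ A, IsIntegral ℚ_[p] α) (j : ℕ) :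
    ∃ (Ω : IntermediateField ℚ_[p] ℂ_[p]) (hzΩ : z ∈ Ω) (hAΩ : ∀ α ∈ A, α ∈ Ω)
      (σ : Ω ≃ₐ[ℚ_[p]] Ω), σ ⟨z, hzΩ⟩ = ⟨z, hzΩ⟩ ^ c ^ p ^ j ∧
      ∀ α (hα : α ∈ A), ¬ p ^ (j + 1) ∣ ramIdx ℚ_[p]⟮α⟯ → σ ⟨α, hAΩ α hα⟩ = ⟨α, hAΩ α hα⟩ := by
  classical
  have hne : NeZero (p ^ n) := ⟨pow_ne_zero _ (Fact.out : p.Prime).ne_zero⟩
  have hzint : IsIntegral ℚ_[p] z := Pool.Agent.Y701.ZT.isIntegral_root hz
  obtain ⟨Ω, hfd, hgal, hΩ⟩ := exists_galois (z ::ₘ A) (by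
    intro α hα
    rcases Multiset.mem_cons.1 hα with rfl | h
    · exact hzint
    · exact hA α h)
  have hzΩ : z ∈ Ω := hΩ z (Multiset.mem_cons_self _ _)
  have hAΩ : ∀ α ∈ A, α ∈ Ω := fun α hα => hΩ α (Multiset.mem_cons_of_mem hα)
  have hult : IsUltrametricDist Ω := IsUltrametricDist.of_normedAlgebra ℚ_[p]
  set z' : Ω := ⟨z, hzΩ⟩ with hz'
  have hz'p : IsPrimitiveRoot z' (p ^ n) :=
    IsPrimitiveRoot.of_map_of_injective (f := algebraMap Ω ℂ_[p]) hz (algebraMap Ω ℂ_[p]).injective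
  obtain ⟨m, rfl⟩ : ∃ m, n = m + 1 := ⟨n - 1, by omega⟩
  have hram : ram (ℚ_[p]⟮z'⟯ : IntermediateField ℚ_[p] Ω) = Nat.totient (p ^ (m + 1)) := by
    rw [ram_eq]
    exact (Pool.Agent.Y701.ZT.finrank_cyc hz).2
  obtain ⟨σ, hσ, hσz⟩ := exists_wild hz'p hram hc
  refine ⟨Ω, hzΩ, hAΩ, σ ^ p ^ j, ?_, ?_⟩
  · exact Pool.Agent.Y701.ZT.aut_pow σ hσz (p ^ j)
  · intro α hα hnd
    apply pow_fix hσ
    rwa [ram_eq]

end Pool.Agent.KS6_3.ZR
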