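import Mathlib
import Pool.Agent.KS6_3.ZR.Bridge

/-!
Formal sums with `p`-adic exponents and their values at roots of unity.
-/

set_option autoImplicit false
set_option linter.unusedSectionVars false

open Filter Topology Polynomial IntermediateField

namespace Pool.Agent.KS6_3.ZR

open Pool.Agent.H707R3

variable {p : ℕ} [Fact p.Prime]

/-- Evaluation of formal sums with coefficients in `K`. -/
noncomputable def evK (K : IntermediateField ℚ_[p] ℂ_[p]) {N : ℕ} {z : ℂ_[p]} (hz : z ^ p ^ N = 1) :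
    AddMonoidAlgebra K ℤ_[p] →+* ℂ_[p] :=
  AddMonoidAlgebra.liftNCRingHom (algebraMap K ℂ_[p]) (chr hz) (fun _ _ => Commute.all _ _)

lemma evK_single (K : IntermediateField ℚ_[p] ℂ_[p]) {N : ℕ} {z : ℂ_[p]} (hz : z ^ p ^ N = 1)
    (b : ℤ_[p]) (a : K) :
    evK K hz (AddMonoidAlgebra.single b a) = (a : ℂ_[p]) * z ^ res N b := by
  rw [evK, AddMonoidAlgebra.liftNCRingHom_single]
  rfl

lemma evK_eq (K : IntermediateField ℚ_[p] ℂ_[p]) {N : ℕ} {z : ℂ_[p]} (hz : z ^ p ^ N = 1)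
    (x : AddMonoidAlgebra K ℤ_[p]) :
    evK K hz x = ∑ b ∈ x.coeff.support, (x.coeff b : ℂ_[p]) * z ^ res N b := by
  have key : ∀ x : AddMonoidAlgebra K ℤ_[p],
      evK K hz x = x.coeff.sum fun b a => (a : ℂ_[p]) * z ^ res N b := by
    intro x
    induction x using AddMonoidAlgebra.induction_linear with
    | zero => simp
    | add f g hf hg =>
      rw [map_add, hf, hg, AddMonoidAlgebra.coeff_add, Finsupp.sum_add_index']
      · intro b; simp
      · intro b m m'; push_cast; ring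
    | single b m =>
      rw [evK_single, AddMonoidAlgebra.coeff_single, Finsupp.sum_single_index]
      simp
  rw [key]
  rfl

lemma totient_mul {m n : ℕ} (hm : m ≠ 0) (hmn : m ≤ n) :
    Nat.totient (p ^ m) * p ^ (n - m) = Nat.totient (p ^ n) := by
  have hp : p.Prime := Fact.out
  rw [Nat.totient_prime_pow hp (Nat.pos_of_ne_zero hm),
    Nat.totient_prime_pow hp (by omega), mul_right_comm, ← pow_add]
  congr 2
  omega

/-- The powers `z ^ i`, `i < p ^ (n - m)`, of a `p ^ n`-th root of unity are linearly independent over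
the field of `p ^ m`-th roots of unity. -/
lemma indep {m n : ℕ} (hm : m ≠ 0) (hmn : m ≤ n) {w z : ℂ_[p]} (hw : IsPrimitiveRoot w (p ^ m))
    (hz : IsPrimitiveRoot z (p ^ n)) {ι : Type*} (S : Finset ι) (e : ι → ℕ)
    (he : ∀ i ∈ S, e i < p ^ (n - m)) (hinj : ∀ i ∈ S, ∀ j ∈ S, e i = e j → i = j)
    (a : ι → ℂ_[p]) (ha : ∀ i ∈ S, a i ∈ ℚ_[p]⟮w⟯) (h0 : ∑ i ∈ S, a i * z ^ e i = 0) :
    ∀ i ∈ S, a i = 0 := by
  classical
  have hp : p.Prime := Fact.out
  have hnem : NeZero (p ^ m) := ⟨pow_ne_zero _ hp.ne_zero⟩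
  have hnen : NeZero (p ^ n) := ⟨pow_ne_zero _ hp.ne_zero⟩
  set K := ℚ_[p]⟮w⟯ with hK
  have hzintQ : IsIntegral ℚ_[p] z := Pool.Agent.Y701.ZT.isIntegral_root hz
  have hwintQ : IsIntegral ℚ_[p] w := Pool.Agent.Y701.ZT.isIntegral_root hw
  have hzint : IsIntegral K z := Pool.Agent.Y701.ZT.isIntegral_root hz
  have hwz : K ≤ ℚ_[p]⟮z⟯ := by
    rw [hK, IntermediateField.adjoin_simple_le_iff]
    obtain ⟨i, _, hi⟩ := hz.eq_pow_of_pow_eq_one (ξ := w) (by
      have h1 : p ^ n = p ^ m * p ^ (n - m) := by rw [← pow_add]; congr 1; omega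
      rw [h1, pow_mul, hw.pow_eq_one, one_pow])
    rw [← hi]
    exact pow_mem (IntermediateField.mem_adjoin_simple_self _ _) i
  have hfdK : FiniteDimensional ℚ_[p] K := adjoin.finiteDimensional hwintQ
  have hfdz : FiniteDimensional K K⟮z⟯ := adjoin.finiteDimensional hzint
  have hres : (K⟮z⟯).restrictScalars ℚ_[p] = ℚ_[p]⟮z⟯ := by
    rw [IntermediateField.restrictScalars_adjoin, IntermediateField.adjoin_union,
      IntermediateField.adjoin_self]
    exact sup_eq_right.2 hwz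
  have hdK : Module.finrank ℚ_[p] K = Nat.totient (p ^ m) := by
    obtain ⟨m', rfl⟩ : ∃ m', m = m' + 1 := ⟨m - 1, by omega⟩
    exact (Pool.Agent.Y701.ZT.finrank_cyc hw).1
  have hdz : Module.finrank ℚ_[p] ℚ_[p]⟮z⟯ = Nat.totient (p ^ n) := by
    obtain ⟨n', rfl⟩ : ∃ n', n = n' + 1 := ⟨n - 1, by omega⟩
    exact (Pool.Agent.Y701.ZT.finrank_cyc hz).1
  have hdeg : (minpoly K z).natDegree = p ^ (n - m) := by
    rw [← IntermediateField.adjoin.finrank hzint]
    have h1 := Module.finrank_mul_finrank ℚ_[p] K K⟮z⟯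
    have h2 : Module.finrank ℚ_[p] K⟮z⟯ = Module.finrank ℚ_[p] ℚ_[p]⟮z⟯ := by
      rw [← hres]
      rfl
    rw [h2, hdK, hdz, ← totient_mul hm hmn] at h1
    have h3 : 0 < Nat.totient (p ^ m) := Nat.totient_pos.2 (pow_pos hp.pos _)
    exact Nat.eq_of_mul_eq_mul_left h3 h1
  let f : K[X] := ∑ i ∈ S.attach, C (⟨a i, ha i i.2⟩ : K) * X ^ e i
  have hfz : aeval z f = 0 := by
    rw [← h0, ← Finset.sum_attach S]
    simp only [f, map_sum, map_mul, aeval_C, map_pow, aeval_X]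
    rfl
  have hflt : f.degree < (minpoly K z).degree := by
    rw [degree_eq_natDegree (minpoly.ne_zero hzint), hdeg]
    refine (degree_sum_le _ _).trans_lt ?_
    rw [Finset.sup_lt_iff (WithBot.bot_lt_coe _)]
    intro i _
    refine (degree_C_mul_X_pow_le _ _).trans_lt ?_
    exact_mod_cast he i i.2
  have hf0 : f = 0 := by
    by_contra hne
    exact absurd (minpoly.degree_le_of_ne_zero K z hne hfz) (not_le.2 hflt)
  intro i hi
  have h4 := congrArg (fun g : K[X] => g.coeff (e i)) hf0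
  simp only [f, finsetSum_coeff, coeff_C_mul_X_pow, coeff_zero] at h4
  rw [Finset.sum_eq_single ⟨i, hi⟩] at h4
  · rw [if_pos rfl] at h4
    exact congrArg (fun t : K => (t : ℂ_[p])) h4
  · intro j _ hji
    rw [if_neg]
    intro heq
    apply hji
    ext
    exact (hinj i hi j j.2 heq).symm
  · intro h
    exact absurd (Finset.mem_attach _ _) h

/-- **A nonzero formal sum has nonzero values at the roots of unity of large order.** -/
theorem ev_ne_zero {m : ℕ} (hm : m ≠ 0) {w : ℂ_[p]} (hw : IsPrimitiveRoot w (p ^ m))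
    (f : AddMonoidAlgebra ℚ_[p]⟮w⟯ ℤ_[p]) (hf : f ≠ 0) :
    ∃ N : ℕ, ∀ n, N ≤ n → ∀ z : ℂ_[p], ∀ hz : IsPrimitiveRoot z (p ^ n),
      evK _ hz.pow_eq_one f ≠ 0 := by
  classical
  have hp : p.Prime := Fact.out
  obtain ⟨N₁, hN₁⟩ := exists_distinct f.coeff.support
  refine ⟨N₁ + m, fun n hn z hz h0 => ?_⟩
  have hmn : m ≤ n := by omega
  rw [evK_eq] at h0
  set w' := z ^ p ^ (n - m) with hw'
  have hw'1 : w' ^ p ^ m = 1 := by
    rw [hw', ← pow_mul, ← pow_add, Nat.sub_add_cancel hmn, hz.pow_eq_one]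
  have hnem : NeZero (p ^ m) := ⟨pow_ne_zero _ hp.ne_zero⟩
  have hw'K : w' ∈ ℚ_[p]⟮w⟯ := by
    obtain ⟨i, _, hi⟩ := hw.eq_pow_of_pow_eq_one hw'1
    rw [← hi]
    exact pow_mem (IntermediateField.mem_adjoin_simple_self _ _) i
  have hsplit : ∀ b : ℤ_[p], z ^ res n b = w' ^ (res n b / p ^ (n - m)) * z ^ res (n - m) b := by
    intro b
    rw [hw', ← pow_mul, ← pow_add, ← res_mod (Nat.sub_le n m) b, Nat.div_add_mod]
  have h1 := indep hm hmn hw hz f.coeff.support (fun b => res (n - m) b)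
    (fun b _ => res_lt _ b) (fun b hb b' hb' h => hN₁ (n - m) (by omega) b hb b' hb' h)
    (fun b => (f.coeff b : ℂ_[p]) * w' ^ (res n b / p ^ (n - m)))
    (fun b _ => mul_mem (f.coeff b).2 (pow_mem hw'K _)) (by
      rw [← h0]
      refine Finset.sum_congr rfl fun b _ => ?_
      rw [hsplit b]
      ring)
  apply hf
  have h2 : f.coeff = 0 := by
    rw [← Finsupp.support_eq_empty, Finset.eq_empty_iff_forall_notMem]
    intro b hb
    have h3 := h1 b hb
    have hw'0 : w' ≠ 0 := by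
      intro h4
      rw [h4, zero_pow (NeZero.ne _)] at hw'1
      exact zero_ne_one hw'1
    rcases mul_eq_zero.1 h3 with h5 | h5
    · exact (Finsupp.mem_support_iff.1 hb) (by exact_mod_cast h5)
    · exact absurd h5 (pow_ne_zero _ hw'0)
  ext b
  rw [h2]
  rfl

end Pool.Agent.KS6_3.ZR
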