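import Mathlib
import Pool.Agent.KS6_3.ZR.Ev

/-!
Linear algebra: minors of a matrix with independent columns; conjugate values of formal sums.
-/

set_option autoImplicit false
set_option linter.unusedSectionVars false

open Filter Topology Polynomial IntermediateField

namespace Pool.Agent.KS6_3.ZR

open Pool.Agent.H707R3

theorem exists_det {F : Type*} [Field F] {ι : Type*} [Fintype ι] [DecidableEq ι] (g : ℕ → ι → F)
    (h : ∀ v : ι → F, (∀ i, ∑ κ, g i κ * v κ = 0) → v = 0) :
    ∃ e : ι → ℕ, (Matrix.of fun a b => g (e a) b).det ≠ 0 := by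
  classical
  have hspan : Submodule.span F (Set.range g) = ⊤ := by
    by_contra hne
    obtain ⟨f, hf0, hf⟩ := Submodule.exists_le_ker_of_lt_top _ (lt_top_iff_ne_top.2 hne)
    apply hf0
    have h1 := h (fun κ => f (Pi.single κ 1)) (fun i => by
      have h2 : f (g i) = 0 := hf (Submodule.subset_span ⟨i, rfl⟩)
      rw [← h2]
      conv_rhs => rw [← Finset.univ_sum_single (g i), map_sum]
      refine Finset.sum_congr rfl fun κ _ => ?_
      rw [← smul_eq_mul, ← map_smul]
      congr 1
      ext j
      by_cases hj : j = κ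
      · subst hj; simp
      · simp [hj])
    refine LinearMap.pi_ext' fun κ => LinearMap.ext_ring ?_
    have h3 := congrFun h1 κ
    simpa using h3
  obtain ⟨b, hb, hbspan, hli⟩ := exists_linearIndependent F (Set.range g)
  rw [hspan] at hbspan
  have hfin : Finite b := LinearIndependent.finite_of_isNoetherian hli
  have hft : Fintype b := Fintype.ofFinite b
  have hcard : Fintype.card b = Fintype.card ι := by
    rw [← finrank_span_eq_card hli, Subtype.range_coe, hbspan, finrank_top, Module.finrank_pi]
  let ε : ι ≃ b := Fintype.equivOfCardEq hcard.symm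
  choose e he using fun x : b => hb x.2
  refine ⟨fun a => e (ε a), ?_⟩
  have h4 : (Matrix.of fun a b => g (e (ε a)) b) = Matrix.of fun (a : ι) (κ : ι) => (ε a : ι → F) κ := by
    ext a κ
    simp only [Matrix.of_apply]
    rw [he]
  rw [h4]
  have h5 : LinearIndependent F (fun a : ι => (ε a : ι → F)) := hli.comp ε ε.injective
  have h6 : IsUnit (Matrix.of fun (a : ι) (κ : ι) => (ε a : ι → F) κ) :=
    Matrix.linearIndependent_rows_iff_isUnit.1 h5
  exact ((Matrix.isUnit_iff_isUnit_det _).1 h6).ne_zero

variable {p : ℕ} [Fact p.Prime]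

/-- Formal sums with natural number coefficients vanish simultaneously at all primitive roots of unity
of the same order. -/
theorem evSum_eq_zero_iff {m : ℕ} {z₁ z₂ : ℂ_[p]} (h1 : IsPrimitiveRoot z₁ (p ^ m))
    (h2 : IsPrimitiveRoot z₂ (p ^ m)) (M : ℤ_[p] →₀ ℕ) (h : evSum m M z₁ = 0) :
    evSum m M z₂ = 0 := by
  have hp : p.Prime := Fact.out
  have hpos : 0 < p ^ m := pow_pos hp.pos m
  let f : ℚ[X] := ∑ b ∈ M.support, C (M b : ℚ) * X ^ res m b
  have hf : ∀ z : ℂ_[p], aeval z f = evSum m M z := by
    intro z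
    simp [f, evSum]
  have h3 : minpoly ℚ z₁ ∣ f := minpoly.dvd _ _ (by rw [hf, h])
  rw [← cyclotomic_eq_minpoly_rat h1 hpos, cyclotomic_eq_minpoly_rat h2 hpos] at h3
  obtain ⟨q, hq⟩ := h3
  rw [← hf, hq, map_mul, minpoly.aeval, zero_mul]

end Pool.Agent.KS6_3.ZR
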