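import Mathlib
import Pool.Agent.KS6_3.ZR.Lin

/-!
The action of a wild automorphism on `∏ (1 - α T)`.
-/

set_option autoImplicit false
set_option linter.unusedSectionVars false

open Filter Topology PowerSeries IntermediateField

namespace Pool.Agent.KS6_3.ZR

open Pool.Agent.H707R3

/-- The product of the factors `1 - α T`. -/
noncomputable def rp {R : Type*} [CommRing R] (B : Multiset R) : PowerSeries R :=
  (B.map fun α => 1 - C α * X).prod

lemma rp_add {R : Type*} [CommRing R] (B B' : Multiset R) : rp (B + B') = rp B * rp B' := by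
  simp [rp]

lemma map_rp {R S : Type*} [CommRing R] [CommRing S] (g : R →+* S) (B : Multiset R) :
    PowerSeries.map g (rp B) = rp (B.map g) := by
  rw [rp, rp, map_multiset_prod, Multiset.map_map, Multiset.map_map]
  congr 1
  refine Multiset.map_congr rfl fun α _ => ?_
  simp

variable {p : ℕ} [Fact p.Prime]

theorem twist {n : ℕ} (hn : n ≠ 0) {z : ℂ_[p]} (hz : IsPrimitiveRoot z (p ^ n)) {c : ℕ}
    (hc : c ≡ 1 [MOD p]) (A : Multiset ℂ_[p]) (hA : ∀ α ∈ A, IsIntegral ℚ_[p] α) (j : ℕ)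
    (M : ℕ → ℤ_[p] →₀ ℕ) (hM : ∀ i, coeff i (recipProd A) = evSum n (M i) z)
    [DecidablePred fun α : ℂ_[p] => p ^ (j + 1) ∣ ramIdx ℚ_[p]⟮α⟯] :
    ∃ G G' : Multiset ℂ_[p],
      G.card = (A.filter fun α => p ^ (j + 1) ∣ ramIdx ℚ_[p]⟮α⟯).card ∧ G'.card = G.card ∧
      PowerSeries.mk (fun i => evSum n (M i) (z ^ c ^ p ^ j)) * recipProd G =
        PowerSeries.mk (fun i => evSum n (M i) z) * recipProd G' := by
  classical
  obtain ⟨Ω, hzΩ, hAΩ, σ, hσz, hσ⟩ := exists_auto hn hz hc A hA j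
  let ι : Ω →+* ℂ_[p] := algebraMap Ω ℂ_[p]
  let τ : Ω →+* ℂ_[p] := ι.comp (σ : Ω →+* Ω)
  let A₀ : Multiset Ω := A.pmap (fun α h => (⟨α, h⟩ : Ω)) hAΩ
  have hA₀ : A₀.map ι = A := by
    rw [Multiset.map_pmap]
    have h1 : A.pmap (fun α (h : α ∈ Ω) => ι ⟨α, h⟩) hAΩ = A.map id :=
      Multiset.pmap_eq_map _ id A hAΩ
    rw [h1, Multiset.map_id]
  let good : Ω → Prop := fun x => p ^ (j + 1) ∣ ramIdx ℚ_[p]⟮(x : ℂ_[p])⟯
  have hsplit : A₀ = A₀.filter good + A₀.filter (fun x => ¬ good x) :=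
    (Multiset.filter_add_not good A₀).symm
  set B := (A₀.filter (fun x => ¬ good x)).map ι with hB
  set G := (A₀.filter good).map ι with hG
  set G' := (A₀.filter good).map τ with hG'
  have hAG : A = G + B := by
    rw [← hA₀]
    conv_lhs => rw [hsplit]
    rw [Multiset.map_add]
  have hτB : (A₀.filter (fun x => ¬ good x)).map τ = B := by
    rw [hB]
    refine Multiset.map_congr rfl fun x hx => ?_
    obtain ⟨hx1, hx2⟩ := Multiset.mem_filter.1 hx
    have hxA : (x : ℂ_[p]) ∈ A := by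
      rw [← hA₀]
      exact Multiset.mem_map_of_mem ι hx1
    have h2 := hσ (x : ℂ_[p]) hxA hx2
    exact congrArg ι h2
  have hcard : G.card = (A.filter fun α => p ^ (j + 1) ∣ ramIdx ℚ_[p]⟮α⟯).card := by
    have h3 : A.filter (fun α => p ^ (j + 1) ∣ ramIdx ℚ_[p]⟮α⟯) = G := by
      conv_lhs => rw [← hA₀]
      rw [Multiset.filter_map, hG]
      rfl
    rw [h3]
  refine ⟨G, G', hcard, by rw [hG, hG', Multiset.card_map, Multiset.card_map], ?_⟩
  -- coefficients
  set z' : Ω := ⟨z, hzΩ⟩ with hz'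
  have hcoef : ∀ i, coeff i (rp A₀) = ∑ b ∈ (M i).support, ((M i b : ℕ) : Ω) * z' ^ res n b := by
    intro i
    apply (algebraMap Ω ℂ_[p]).injective
    have h4 : coeff i (recipProd A) = ι (coeff i (rp A₀)) := by
      rw [← PowerSeries.coeff_map, map_rp, hA₀]
      rfl
    have h5 : ι (∑ b ∈ (M i).support, ((M i b : ℕ) : Ω) * z' ^ res n b) = evSum n (M i) z := by
      rw [map_sum, evSum]
      refine Finset.sum_congr rfl fun b _ => ?_
      rw [map_mul, map_natCast, map_pow]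
      rfl
    show ι _ = ι _
    rw [← h4, h5, hM]
  have hcoef' : PowerSeries.mk (fun i => evSum n (M i) (z ^ c ^ p ^ j)) = rp (A₀.map τ) := by
    ext i
    rw [coeff_mk, ← map_rp, PowerSeries.coeff_map, hcoef, map_sum, evSum]
    refine Finset.sum_congr rfl fun b _ => ?_
    rw [map_mul, map_natCast, map_pow]
    congr 2
    have h6 : τ z' = ι (σ z') := rfl
    rw [h6, hσz, map_pow]
    rfl
  have hcoef0 : PowerSeries.mk (fun i => evSum n (M i) z) = recipProd A := by
    ext i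
    rw [coeff_mk, hM]
  have hrec : ∀ B : Multiset ℂ_[p], recipProd B = rp B := fun _ => rfl
  have h7 : A₀.map τ = G' + B := by
    conv_lhs => rw [hsplit]
    rw [Multiset.map_add, hτB]
  rw [hcoef', hcoef0, h7, hrec, hrec, hrec, rp_add, hAG, rp_add]
  ring

end Pool.Agent.KS6_3.ZR
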