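import Mathlib
import Pool.Agent.KS6_3.ZR.Twist

/-!
The key lemma: `L(z w, s) / L(z, s)` is not a quotient of polynomials of small degree if `z` is a root of
unity of large order.
-/

set_option autoImplicit false
set_option linter.unusedSectionVars false

open IntermediateField

namespace Pool.Agent.KS6_3.ZR

open Pool.Agent.H707R3

variable {p : ℕ} [Fact p.Prime]

/-- The coefficient of `s ^ i` of the formal `L`-function. -/
noncomputable def th (K : IntermediateField ℚ_[p] ℂ_[p]) (M : ℤ_[p] →₀ ℕ) :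
    AddMonoidAlgebra K ℤ_[p] :=
  ∑ b ∈ M.support, AddMonoidAlgebra.single b ((M b : ℕ) : K)

/-- The coefficient of `s ^ i` of the formal `L`-function, twisted by a root of unity. -/
noncomputable def tw (K : IntermediateField ℚ_[p] ℂ_[p]) (w : K) (m : ℕ) (M : ℤ_[p] →₀ ℕ) :
    AddMonoidAlgebra K ℤ_[p] :=
  ∑ b ∈ M.support, AddMonoidAlgebra.single b (((M b : ℕ) : K) * w ^ res m b)

lemma evK_th (K : IntermediateField ℚ_[p] ℂ_[p]) (M : ℤ_[p] →₀ ℕ) {n : ℕ} {z : ℂ_[p]}
    (hz : z ^ p ^ n = 1) : evK K hz (th K M) = evSum n M z := by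
  rw [th, map_sum, evSum]
  refine Finset.sum_congr rfl fun b _ => ?_
  rw [evK_single]
  push_cast
  rfl

lemma pow_res_of_le {m n : ℕ} (hmn : m ≤ n) {w : ℂ_[p]} (hw : w ^ p ^ m = 1) (b : ℤ_[p]) :
    w ^ res n b = w ^ res m b := by
  rw [← res_mod hmn b]
  conv_lhs => rw [← Nat.div_add_mod (res n b) (p ^ m)]
  rw [pow_add, pow_mul, hw, one_pow, one_mul]

lemma evK_tw (K : IntermediateField ℚ_[p] ℂ_[p]) (w : K) {m n : ℕ} (hmn : m ≤ n)
    (hw : (w : ℂ_[p]) ^ p ^ m = 1) (M : ℤ_[p] →₀ ℕ) {z : ℂ_[p]} (hz : z ^ p ^ n = 1) :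
    evK K hz (tw K w m M) = evSum n M ((w : ℂ_[p]) * z) := by
  rw [tw, map_sum, evSum]
  refine Finset.sum_congr rfl fun b _ => ?_
  rw [evK_single, mul_pow, pow_res_of_le hmn hw]
  push_cast
  ring

/-- Rows of the matrix. -/
def row {R : Type*} [Zero R] (D : ℕ) (a b : ℕ → R) (i : ℕ) : Fin D ⊕ Fin D → R :=
  Sum.elim (fun j => if (j : ℕ) ≤ i then a (i - j) else 0) (fun j => if (j : ℕ) ≤ i then b (i - j) else 0)

lemma map_row {R S : Type*} [Semiring R] [Semiring S] (g : R →+* S) (D : ℕ) (a b : ℕ → R) (i : ℕ)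
    (κ : Fin D ⊕ Fin D) : g (row D a b i κ) = row D (fun i => g (a i)) (fun i => g (b i)) i κ := by
  rcases κ with j | j
  · simp only [row, Sum.elim_inl]
    split_ifs <;> simp
  · simp only [row, Sum.elim_inr]
    split_ifs <;> simp

section poly

open Polynomial

lemma coeff_mul_sum {F : Type*} [Field F] (T : F[X]) (D : ℕ) (v : Fin D → F) (i : ℕ) :
    (T * ∑ j : Fin D, C (v j) * X ^ (j : ℕ)).coeff i =
      ∑ j : Fin D, (if (j : ℕ) ≤ i then T.coeff (i - j) else 0) * v j := by
  rw [Finset.mul_sum, finsetSum_coeff]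
  refine Finset.sum_congr rfl fun j _ => ?_
  have h1 : T * (C (v j) * X ^ (j : ℕ)) = C (v j) * (T * X ^ (j : ℕ)) := by ring
  rw [h1, coeff_C_mul, coeff_mul_X_pow']
  split_ifs <;> ring

lemma sum_zero {F : Type*} [Field F] (D : ℕ) (v : Fin D → F)
    (h : ∑ j : Fin D, C (v j) * X ^ (j : ℕ) = 0) : v = 0 := by
  classical
  funext j
  have h1 := congrArg (fun f : F[X] => f.coeff (j : ℕ)) h
  simp only [finsetSum_coeff, coeff_C_mul_X_pow, coeff_zero] at h1
  rw [Finset.sum_eq_single j] at h1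
  · rwa [if_pos rfl] at h1
  · intro j' _ hj'
    rw [if_neg]
    intro heq
    exact hj' (Fin.ext heq.symm)
  · intro h2
    exact absurd (Finset.mem_univ _) h2

lemma natDegree_sum_lt {F : Type*} [Field F] (D : ℕ) (v : Fin D → F)
    (h : ∑ j : Fin D, C (v j) * X ^ (j : ℕ) ≠ 0) :
    (∑ j : Fin D, C (v j) * X ^ (j : ℕ)).natDegree < D := by
  rw [natDegree_lt_iff_degree_lt h]
  refine (degree_sum_le _ _).trans_lt ?_
  rw [Finset.sup_lt_iff (WithBot.bot_lt_coe _)]
  intro j _
  refine (degree_C_mul_X_pow_le _ _).trans_lt ?_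
  exact_mod_cast j.2

lemma row_indep {F : Type*} [Field F] (T' Tw : F[X]) (hT' : T' ≠ 0) (D : ℕ)
    (hD : T'.natDegree + D ≤ Tw.natDegree) (v : Fin D ⊕ Fin D → F)
    (h : ∀ i, ∑ κ, row D Tw.coeff T'.coeff i κ * v κ = 0) : v = 0 := by
  set P : F[X] := ∑ j : Fin D, C (v (Sum.inl j)) * X ^ (j : ℕ) with hP
  set Q : F[X] := ∑ j : Fin D, C (v (Sum.inr j)) * X ^ (j : ℕ) with hQ
  have h1 : Tw * P + T' * Q = 0 := by
    ext i
    have h2 := h i
    rw [Fintype.sum_sum_type] at h2
    rw [coeff_add, hP, hQ, coeff_mul_sum Tw D (fun j => v (Sum.inl j)),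
      coeff_mul_sum T' D (fun j => v (Sum.inr j)), coeff_zero]
    exact h2
  have hP0 : P = 0 := by
    by_contra hne
    have h2 := natDegree_sum_lt D (fun j => v (Sum.inl j)) hne
    have hD0 : 0 < D := by omega
    have hTw : Tw ≠ 0 := by
      rintro rfl
      rw [natDegree_zero] at hD
      omega
    have h3 : Tw * P = -(T' * Q) := eq_neg_of_add_eq_zero_left h1
    have hQne : Q ≠ 0 := by
      intro h0
      rw [h0, mul_zero, neg_zero] at h3
      exact (mul_ne_zero hTw hne) h3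
    have h4 := natDegree_sum_lt D (fun j => v (Sum.inr j)) hQne
    have h5 := congrArg natDegree h3
    rw [natDegree_neg, natDegree_mul hTw hne, natDegree_mul hT' hQne] at h5
    rw [← hQ] at h4
    omega
  have hQ0 : Q = 0 := by
    rw [hP0, mul_zero, zero_add] at h1
    exact (mul_eq_zero.1 h1).resolve_left hT'
  have h6 := sum_zero D (fun j => v (Sum.inl j)) hP0
  have h7 := sum_zero D (fun j => v (Sum.inr j)) hQ0
  funext κ
  rcases κ with j | j
  · exact congrFun h6 j
  · exact congrFun h7 j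

end poly

lemma coeff_mul_rec {G : Multiset ℂ_[p]} {D : ℕ} (hG : G.card < D) (a : ℕ → ℂ_[p]) (i : ℕ) :
    PowerSeries.coeff i (PowerSeries.mk a * recipProd G) =
      ∑ j : Fin D, (if (j : ℕ) ≤ i then a (i - j) else 0) * PowerSeries.coeff (j : ℕ) (recipProd G) := by
  rw [mul_comm, PowerSeries.coeff_mul,
    Finset.Nat.sum_antidiagonal_eq_sum_range_succ_mk]
  have h1 : ∑ j : Fin D, (if (j : ℕ) ≤ i then a (i - j) else 0) *
      PowerSeries.coeff (j : ℕ) (recipProd G) =
      ∑ j ∈ Finset.range D, (if j ≤ i then a (i - j) else 0) * PowerSeries.coeff j (recipProd G) :=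
    Fin.sum_univ_eq_sum_range
      (fun j => (if j ≤ i then a (i - j) else 0) * PowerSeries.coeff j (recipProd G)) D
  rw [h1]
  have h2 : ∀ j, D ≤ j → PowerSeries.coeff j (recipProd G) = 0 := fun j hj =>
    coeff_recipProd_eq_zero G j (by omega)
  have h3 : ∑ j ∈ Finset.range D, (if j ≤ i then a (i - j) else 0) *
      PowerSeries.coeff j (recipProd G) =
      ∑ j ∈ Finset.range (max D (i + 1)), (if j ≤ i then a (i - j) else 0) *
        PowerSeries.coeff j (recipProd G) := by
    apply Finset.sum_subset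
    · intro j hj
      rw [Finset.mem_range] at hj ⊢
      exact lt_max_of_lt_left hj
    · intro j _ hj
      rw [Finset.mem_range, not_lt] at hj
      rw [h2 j hj, mul_zero]
  have h4 : ∑ j ∈ Finset.range i.succ, PowerSeries.coeff j (recipProd G) *
      PowerSeries.coeff (i - j) (PowerSeries.mk a) =
      ∑ j ∈ Finset.range (max D (i + 1)), (if j ≤ i then a (i - j) else 0) *
        PowerSeries.coeff j (recipProd G) := by
    have h5 : ∑ j ∈ Finset.range i.succ, PowerSeries.coeff j (recipProd G) *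
        PowerSeries.coeff (i - j) (PowerSeries.mk a) =
        ∑ j ∈ Finset.range i.succ, (if j ≤ i then a (i - j) else 0) *
          PowerSeries.coeff j (recipProd G) := by
      refine Finset.sum_congr rfl fun j hj => ?_
      rw [Finset.mem_range] at hj
      rw [PowerSeries.coeff_mk, if_pos (by omega), mul_comm]
    rw [h5]
    apply Finset.sum_subset
    · intro j hj
      rw [Finset.mem_range] at hj ⊢
      exact lt_max_of_lt_right hj
    · intro j _ hj
      rw [Finset.mem_range, not_lt] at hj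
      rw [if_neg (by omega), zero_mul]
  rw [h3]
  exact h4

/-- **Key lemma.** -/
theorem key {m : ℕ} (hm : m ≠ 0) {w : ℂ_[p]} (hw : IsPrimitiveRoot w (p ^ m)) (M : ℕ → ℤ_[p] →₀ ℕ)
    {z' : ℂ_[p]} (hz' : z' ^ p ^ m = 1) (T' Tw : Polynomial ℂ_[p]) (hT' : T' ≠ 0)
    (hT'c : ∀ i, T'.coeff i = evSum m (M i) z') (hTwc : ∀ i, Tw.coeff i = evSum m (M i) (w * z'))
    (D : ℕ) (hD : T'.natDegree + D ≤ Tw.natDegree) :
    ∃ N : ℕ, ∀ n, N ≤ n → ∀ z : ℂ_[p], IsPrimitiveRoot z (p ^ n) → ∀ G G' : Multiset ℂ_[p],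
      G.card < D → G'.card < D →
      PowerSeries.mk (fun i => evSum n (M i) (w * z)) * recipProd G =
        PowerSeries.mk (fun i => evSum n (M i) z) * recipProd G' → False := by
  classical
  set K := ℚ_[p]⟮w⟯ with hK
  let wK : K := ⟨w, IntermediateField.mem_adjoin_simple_self _ _⟩
  have hwK : (wK : ℂ_[p]) ^ p ^ m = 1 := hw.pow_eq_one
  -- the minor at `z'`
  obtain ⟨e, he⟩ := exists_det (row D Tw.coeff T'.coeff) (row_indep T' Tw hT' D hD)
  let ρ : ℕ → Fin D ⊕ Fin D → AddMonoidAlgebra K ℤ_[p] :=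
    row D (fun i => tw K wK m (M i)) (fun i => th K (M i))
  let Δ : AddMonoidAlgebra K ℤ_[p] := (Matrix.of fun a b => ρ (e a) b).det
  have hev : ∀ {n : ℕ} (_ : m ≤ n) {z : ℂ_[p]} (hz : z ^ p ^ n = 1),
      evK K hz Δ = (Matrix.of fun a b => row D (fun i => evSum n (M i) (w * z))
        (fun i => evSum n (M i) z) (e a) b).det := by
    intro n hmn z hz
    rw [RingHom.map_det]
    congr 1
    ext a b
    show evK K hz (ρ (e a) b) = _
    rw [map_row]
    simp only [Matrix.of_apply]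
    congr 1
    · funext i
      exact evK_tw K wK hmn hwK (M i) hz
    · funext i
      exact evK_th K (M i) hz
  have hΔ : Δ ≠ 0 := by
    intro h0
    apply he
    have h1 := hev le_rfl hz'
    rw [h0, map_zero] at h1
    rw [h1]
    congr 1
    ext a b
    simp only [Matrix.of_apply]
    congr 1
    · funext i
      exact hTwc i
    · funext i
      exact hT'c i
  obtain ⟨N, hN⟩ := ev_ne_zero hm hw Δ hΔ
  refine ⟨max N m, fun n hn z hz G G' hG hG' heq => ?_⟩
  have h1 := hN n ((le_max_left _ _).trans hn) z hz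
  rw [hev ((le_max_right _ _).trans hn)] at h1
  let v : Fin D ⊕ Fin D → ℂ_[p] :=
    Sum.elim (fun j => PowerSeries.coeff (j : ℕ) (recipProd G))
      (fun j => -PowerSeries.coeff (j : ℕ) (recipProd G'))
  have hv : Matrix.mulVec (Matrix.of fun a b => row D (fun i => evSum n (M i) (w * z))
      (fun i => evSum n (M i) z) (e a) b) v = 0 := by
    funext a
    rw [Matrix.mulVec, dotProduct, Fintype.sum_sum_type]
    simp only [Matrix.of_apply, row, Sum.elim_inl, Sum.elim_inr, v, Pi.zero_apply, mul_neg,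
      Finset.sum_neg_distrib]
    rw [← coeff_mul_rec hG (fun i => evSum n (M i) (w * z)),
      ← coeff_mul_rec hG' (fun i => evSum n (M i) z), heq, add_neg_cancel]
  have h2 := Matrix.eq_zero_of_mulVec_eq_zero h1 hv
  have hD0 : 0 < D := by omega
  have h3 := congrFun h2 (Sum.inl ⟨0, hD0⟩)
  simp only [v, Sum.elim_inl, Pi.zero_apply] at h3
  rw [coeff_zero_recipProd] at h3
  exact one_ne_zero h3

end Pool.Agent.KS6_3.ZR
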