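import Mathlib
import Pool.Agent.KS6_3.ZR.Key

/-!
Powers of `1 + p` (of `5` if `p = 2`).
-/

set_option autoImplicit false
set_option linter.unusedSectionVars false

namespace Pool.Agent.KS6_3.ZR

open Pool.Agent.H707R3

variable {p : ℕ} [Fact p.Prime]

/-- `2` if `p = 2` and `1` otherwise. -/
def dl (p : ℕ) : ℕ := if p = 2 then 2 else 1

theorem exists_base (p : ℕ) [Fact p.Prime] :
    ∃ c : ℕ, c ≡ 1 [MOD p] ∧ ∀ j, ∃ u, c ^ p ^ j = 1 + p ^ (dl p + j) * u ∧ ¬ p ∣ u := by
  have hp : p.Prime := Fact.out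
  have key : ∀ c : ℕ, 1 < c → (∀ j, padicValNat p (c ^ p ^ j - 1) = dl p + j) →
      ∀ j, ∃ u, c ^ p ^ j = 1 + p ^ (dl p + j) * u ∧ ¬ p ∣ u := by
    intro c hc h j
    have h1 : 1 < c ^ p ^ j := Nat.one_lt_pow (pow_ne_zero _ hp.ne_zero) hc
    obtain ⟨e, u, hu, he⟩ := Nat.exists_eq_pow_mul_and_not_dvd (n := c ^ p ^ j - 1) (by omega) p
      hp.ne_one
    have h2 := h j
    have hu0 : u ≠ 0 := by
      rintro rfl
      exact hu (dvd_zero p)
    rw [he, padicValNat.mul (pow_ne_zero _ hp.ne_zero) hu0, padicValNat.prime_pow,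
      padicValNat.eq_zero_of_not_dvd hu, add_zero] at h2
    refine ⟨u, ?_, hu⟩
    rw [← h2, ← he]
    omega
  by_cases h2 : p = 2
  · subst h2
    refine ⟨5, by decide, key 5 (by norm_num) fun j => ?_⟩
    rcases Nat.eq_zero_or_pos j with rfl | hj
    · have h4 : (5 : ℕ) ^ 2 ^ 0 - 1 = 2 ^ 2 := by norm_num
      rw [h4, padicValNat.prime_pow]
      rfl
    · have h3 := padicValNat.pow_two_sub_pow (x := 5) (y := 1) (by norm_num) (by norm_num)
        (by norm_num) (n := 2 ^ j) (pow_ne_zero _ (by norm_num))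
        ((even_two).pow_of_ne_zero hj.ne')
      rw [one_pow] at h3
      have h5 : padicValNat 2 (5 + 1) = 1 := by
        have : (5 + 1 : ℕ) = 2 ^ 1 * 3 := by norm_num
        rw [this, padicValNat.mul (by norm_num) (by norm_num), padicValNat.prime_pow,
          padicValNat.eq_zero_of_not_dvd (by norm_num)]
      have h6 : padicValNat 2 (5 - 1) = 2 := by
        have : (5 - 1 : ℕ) = 2 ^ 2 := by norm_num
        rw [this, padicValNat.prime_pow]
      rw [h5, h6, padicValNat.prime_pow] at h3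
      have h7 : dl 2 = 2 := rfl
      rw [h7]
      omega
  · refine ⟨1 + p, ?_, key (1 + p) (by have := hp.pos; omega) fun j => ?_⟩
    · show (1 + p) % p = 1 % p
      simp
    · have hodd : Odd p := hp.odd_of_ne_two h2
      have h3 := padicValNat.pow_sub_pow (x := 1 + p) (y := 1) (p := p) hodd (by have := hp.pos; omega)
        (by simp) (by
          intro h
          have := (Nat.dvd_add_left (dvd_refl p)).1 h
          exact hp.one_lt.ne' (Nat.dvd_one.1 this)) (n := p ^ j) (pow_ne_zero _ hp.ne_zero)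
      rw [one_pow] at h3
      rw [h3, padicValNat.prime_pow]
      have h4 : 1 + p - 1 = p ^ 1 := by rw [pow_one]; omega
      rw [h4, padicValNat.prime_pow, dl, if_neg h2]

/-- The root of unity `w`. -/
theorem exists_w {c : ℕ} (hc : ∀ j, ∃ u, c ^ p ^ j = 1 + p ^ (dl p + j) * u ∧ ¬ p ∣ u) {m n : ℕ}
    (hmn : m + dl p ≤ n) {z : ℂ_[p]} (hz : IsPrimitiveRoot z (p ^ n)) :
    ∃ w : ℂ_[p], IsPrimitiveRoot w (p ^ m) ∧ z ^ c ^ p ^ (n - m - dl p) = w * z := by
  have hp : p.Prime := Fact.out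
  obtain ⟨u, hu, hpu⟩ := hc (n - m - dl p)
  have h1 : dl p + (n - m - dl p) = n - m := by omega
  rw [h1] at hu
  refine ⟨(z ^ p ^ (n - m)) ^ u, ?_, ?_⟩
  · have h2 : IsPrimitiveRoot (z ^ p ^ (n - m)) (p ^ m) := by
      refine hz.pow (pow_pos hp.pos n) ?_
      rw [← pow_add]
      congr 1
      omega
    refine h2.pow_of_coprime u ?_
    apply Nat.Coprime.pow_right
    rw [Nat.coprime_comm]
    exact (Nat.Prime.coprime_iff_not_dvd hp).2 hpu
  · rw [hu, pow_add, pow_one, pow_mul]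
    ring

end Pool.Agent.KS6_3.ZR
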