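import Mathlib
import Pool.Agent.KS6_3.ZR.Arith

/-!
Reciprocal roots which generate fields with large ramification index: the statements for formal sums.
-/

set_option autoImplicit false
set_option linter.unusedSectionVars false

open PowerSeries IntermediateField

namespace Pool.Agent.KS6_3.ZR

open Pool.Agent.H707R3

/-- The ramification index over `ℚ_p` of the field generated by `α`. -/
noncomputable def ee {p : ℕ} [Fact p.Prime] (α : ℂ_[p]) : ℕ := ramIdx ℚ_[p]⟮α⟯

variable {p : ℕ} [Fact p.Prime]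

lemma dvd_iff {n m : ℕ} (h : m + dl p ≤ n) (r : ℕ) :
    p ^ (n - m - dl p + 1) ∣ r ↔ p ^ n ∣ r * p ^ (m + dl p - 1) := by
  have hp : p.Prime := Fact.out
  have hd : 1 ≤ dl p := by unfold dl; split_ifs <;> norm_num
  have h1 : p ^ n = p ^ (n - m - dl p + 1) * p ^ (m + dl p - 1) := by
    rw [← pow_add]
    congr 1
    omega
  rw [h1]
  exact (Nat.mul_dvd_mul_iff_right (pow_pos hp.pos _)).symm

/-- Uniformity in the finitely many roots of unity of order `p ^ m`. -/
lemma exists_uniform {m : ℕ} (Q : ℂ_[p] → ℕ → Prop)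
    (h : ∀ w, IsPrimitiveRoot w (p ^ m) → ∃ N : ℕ, ∀ n, N ≤ n → Q w n) :
    ∃ N : ℕ, ∀ n, N ≤ n → ∀ w, IsPrimitiveRoot w (p ^ m) → Q w n := by
  classical
  have hp : p.Prime := Fact.out
  choose! N hN using h
  refine ⟨(primitiveRoots (p ^ m) ℂ_[p]).sup N, fun n hn w hw => hN w hw n ?_⟩
  refine le_trans (Finset.le_sup (f := N) ?_) hn
  exact (mem_primitiveRoots (pow_pos hp.pos _)).2 hw

/-- **One root.** -/
theorem one_root (M : ℕ → ℤ_[p] →₀ ℕ) {k₀ : ℕ} {b₀ : ℤ_[p]} (hb₀ : b₀ ∈ (M k₀).support)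
    (hu : ¬ (p : ℤ_[p]) ∣ b₀) :
    ∃ N : ℕ, ∀ n, N ≤ n → ∀ z : ℂ_[p], IsPrimitiveRoot z (p ^ n) → ∀ A : Multiset ℂ_[p],
      (∀ α ∈ A, IsIntegral ℚ_[p] α) → (∀ i, coeff i (recipProd A) = evSum n (M i) z) →
      ∃ α ∈ A, p ^ n ∣ ee α * p ^ dl p := by
  classical
  have hp : p.Prime := Fact.out
  obtain ⟨c, hc1, hc⟩ := exists_base p
  have hmain : ∀ w : ℂ_[p], IsPrimitiveRoot w (p ^ 1) → ∃ N : ℕ, ∀ n, N ≤ n →
      ∀ z : ℂ_[p], IsPrimitiveRoot z (p ^ n) →
        evSum n (M k₀) (w * z) ≠ evSum n (M k₀) z := by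
    intro w hw
    set K := ℚ_[p]⟮w⟯ with hK
    let wK : K := ⟨w, IntermediateField.mem_adjoin_simple_self _ _⟩
    have hwK : (wK : ℂ_[p]) ^ p ^ 1 = 1 := hw.pow_eq_one
    have hne : tw K wK 1 (M k₀) - th K (M k₀) ≠ 0 := by
      intro h0
      have h1 := congrArg (fun f : AddMonoidAlgebra K ℤ_[p] => f.coeff b₀) h0
      have h2 : ∀ (a : ℤ_[p] → K), (∑ b ∈ (M k₀).support,
          AddMonoidAlgebra.single b (a b) : AddMonoidAlgebra K ℤ_[p]).coeff b₀ = a b₀ := by
        intro a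
        rw [AddMonoidAlgebra.coeff_sum, Finsupp.finsetSum_apply, Finset.sum_eq_single b₀]
        · simp
        · intro b _ hb
          simp [hb]
        · intro h3
          exact absurd hb₀ h3
      rw [AddMonoidAlgebra.coeff_sub, Finsupp.sub_apply, tw, th, h2, h2] at h1
      have h3 : ((M k₀ b₀ : ℕ) : K) * (wK ^ res 1 b₀ - 1) = 0 := by
        rw [mul_sub, mul_one]
        simpa using h1
      have h4 : ((M k₀ b₀ : ℕ) : K) ≠ 0 := by
        exact_mod_cast Finsupp.mem_support_iff.1 hb₀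
      have h5 := (mul_eq_zero.1 h3).resolve_left h4
      have h6 : w ^ res 1 b₀ = 1 := by
        have := congrArg (fun t : K => (t : ℂ_[p])) h5
        simpa [sub_eq_zero, wK] using this
      have h7 := hw.dvd_of_pow_eq_one _ h6
      have h8 : res 1 b₀ < p ^ 1 := res_lt 1 b₀
      have h9 : res 1 b₀ = 0 := Nat.eq_zero_of_dvd_of_lt h7 h8
      obtain ⟨t, ht⟩ := exists_mul_pow 1 b₀
      rw [h9, Nat.cast_zero, zero_add, pow_one] at ht
      exact hu ⟨t, ht⟩
    obtain ⟨N, hN⟩ := ev_ne_zero one_ne_zero hw _ hne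
    refine ⟨max N 1, fun n hn z hz heq => hN n ((le_max_left _ _).trans hn) z hz ?_⟩
    rw [map_sub, evK_tw K wK ((le_max_right _ _).trans hn) hwK, evK_th]
    exact sub_eq_zero.2 heq
  obtain ⟨N, hN⟩ := exists_uniform (m := 1) (fun w n => ∀ z : ℂ_[p], IsPrimitiveRoot z (p ^ n) →
    evSum n (M k₀) (w * z) ≠ evSum n (M k₀) z) hmain
  refine ⟨max N (1 + dl p), fun n hn z hz A hA hM => ?_⟩
  have hn1 : 1 + dl p ≤ n := (le_max_right _ _).trans hn
  have hn0 : n ≠ 0 := by omega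
  by_contra hcon
  push Not at hcon
  obtain ⟨G, G', hG, hG', heq⟩ := twist hn0 hz hc1 A hA (n - 1 - dl p) M hM
  have hempty : A.filter (fun α => p ^ (n - 1 - dl p + 1) ∣ ramIdx ℚ_[p]⟮α⟯) = 0 := by
    rw [Multiset.filter_eq_nil]
    intro α hα h1
    apply hcon α hα
    have h2 := (dvd_iff hn1 _).1 h1
    rwa [Nat.add_sub_cancel_left] at h2
  rw [hempty, Multiset.card_zero, Multiset.card_eq_zero] at hG
  rw [hG, Multiset.card_zero, Multiset.card_eq_zero] at hG'
  obtain ⟨w, hw, hwz⟩ := exists_w hc hn1 hz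
  rw [hG, hG', hwz] at heq
  have h3 := congrArg (coeff k₀) heq
  have h4 : recipProd (0 : Multiset ℂ_[p]) = 1 := by simp [recipProd]
  rw [h4, mul_one, mul_one, coeff_mk, coeff_mk] at h3
  exact hN n ((le_max_left _ _).trans hn) w hw z hz h3

/-- **Many roots.** -/
theorem many_roots (M : ℕ → ℤ_[p] →₀ ℕ) {m' m : ℕ} (hm : m' < m) {z₁ z₂ : ℂ_[p]}
    (hz₁ : IsPrimitiveRoot z₁ (p ^ m)) (hz₂ : IsPrimitiveRoot z₂ (p ^ m')) (T₁ T₂ : Polynomial ℂ_[p])
    (hT₂ : T₂ ≠ 0) (hT₁c : ∀ i, T₁.coeff i = evSum m (M i) z₁)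
    (hT₂c : ∀ i, T₂.coeff i = evSum m' (M i) z₂) :
    ∃ N : ℕ, ∀ n, N ≤ n → ∀ z : ℂ_[p], IsPrimitiveRoot z (p ^ n) → ∀ A : Multiset ℂ_[p],
      (∀ α ∈ A, IsIntegral ℚ_[p] α) → (∀ i, coeff i (recipProd A) = evSum n (M i) z) →
      ∀ [DecidablePred fun α : ℂ_[p] => p ^ n ∣ ee α * p ^ (m + dl p - 1)],
      T₁.natDegree ≤ T₂.natDegree +
        Multiset.card (A.filter fun α => p ^ n ∣ ee α * p ^ (m + dl p - 1)) := by
  classical
  have hp : p.Prime := Fact.out
  by_cases hle : T₁.natDegree ≤ T₂.natDegree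
  · exact ⟨0, fun n _ z _ A _ _ _ => hle.trans (Nat.le_add_right _ _)⟩
  push Not at hle
  obtain ⟨c, hc1, hc⟩ := exists_base p
  set D := T₁.natDegree - T₂.natDegree with hD
  have hm0 : m ≠ 0 := by omega
  have hz₂m : z₂ ^ p ^ m = 1 := by
    have h1 : p ^ m = p ^ m' * p ^ (m - m') := by rw [← pow_add]; congr 1; omega
    rw [h1, pow_mul, hz₂.pow_eq_one, one_pow]
  have hlev : ∀ i, evSum m (M i) z₂ = evSum m' (M i) z₂ := by
    intro i
    rw [evSum, evSum]
    refine Finset.sum_congr rfl fun b _ => ?_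
    rw [pow_res_of_le hm.le hz₂.pow_eq_one]
  have hmain : ∀ w : ℂ_[p], IsPrimitiveRoot w (p ^ m) → ∃ N : ℕ, ∀ n, N ≤ n →
      ∀ z : ℂ_[p], IsPrimitiveRoot z (p ^ n) → ∀ G G' : Multiset ℂ_[p],
      G.card < D → G'.card < D →
      PowerSeries.mk (fun i => evSum n (M i) (w * z)) * recipProd G =
        PowerSeries.mk (fun i => evSum n (M i) z) * recipProd G' → False := by
    intro w hw
    -- `w z₂` is a primitive root of order `p ^ m`
    have hwz : IsPrimitiveRoot (w * z₂) (p ^ m) := by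
      obtain ⟨m1, rfl⟩ : ∃ m1, m = m1 + 1 := ⟨m - 1, by omega⟩
      have h1 : (w * z₂) ^ p ^ (m1 + 1) = 1 := by
        rw [mul_pow, hw.pow_eq_one, hz₂m, one_mul]
      have hord : orderOf (w * z₂) = p ^ (m1 + 1) := by
        apply orderOf_eq_prime_pow
        · intro h2
          have h3 : z₂ ^ p ^ m1 = 1 := by
            have h4 : p ^ m1 = p ^ m' * p ^ (m1 - m') := by rw [← pow_add]; congr 1; omega
            rw [h4, pow_mul, hz₂.pow_eq_one, one_pow]
          rw [mul_pow, h3, mul_one] at h2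
          have h5 := hw.dvd_of_pow_eq_one _ h2
          exact absurd ((Nat.pow_dvd_pow_iff_le_right hp.one_lt).1 h5) (by omega)
        · exact h1
      rw [← hord]
      exact IsPrimitiveRoot.orderOf _
    let Tw : Polynomial ℂ_[p] := ∑ i ∈ Finset.range (T₁.natDegree + 1),
      Polynomial.C (evSum m (M i) (w * z₂)) * Polynomial.X ^ i
    have hzero : ∀ i, T₁.natDegree < i → evSum m (M i) (w * z₂) = 0 := by
      intro i hi
      apply evSum_eq_zero_iff hz₁ hwz
      rw [← hT₁c]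
      exact Polynomial.coeff_eq_zero_of_natDegree_lt hi
    have hTwc : ∀ i, Tw.coeff i = evSum m (M i) (w * z₂) := by
      intro i
      simp only [Tw, Polynomial.finsetSum_coeff, Polynomial.coeff_C_mul_X_pow]
      by_cases hi : i ≤ T₁.natDegree
      · rw [Finset.sum_eq_single i]
        · rw [if_pos rfl]
        · intro j _ hji
          rw [if_neg hji.symm]
        · intro h2
          exact absurd (Finset.mem_range.2 (by omega)) h2
      · rw [hzero i (by omega)]
        apply Finset.sum_eq_zero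
        intro j hj
        rw [Finset.mem_range] at hj
        rw [if_neg (by omega)]
    have hTwd : T₁.natDegree ≤ Tw.natDegree := by
      apply Polynomial.le_natDegree_of_ne_zero
      rw [hTwc]
      intro h0
      have h2 := evSum_eq_zero_iff hwz hz₁ (M T₁.natDegree) h0
      rw [← hT₁c] at h2
      have h3 : T₁ = 0 := Polynomial.leadingCoeff_eq_zero.1 h2
      rw [h3, Polynomial.natDegree_zero] at hle
      exact absurd hle (Nat.not_lt_zero _)
    exact key hm0 hw M hz₂m T₂ Tw hT₂ (fun i => by rw [hT₂c, hlev]) hTwc D (by omega)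
  obtain ⟨N, hN⟩ := exists_uniform (m := m) (fun w n => ∀ z : ℂ_[p], IsPrimitiveRoot z (p ^ n) →
    ∀ G G' : Multiset ℂ_[p], G.card < D → G'.card < D →
      PowerSeries.mk (fun i => evSum n (M i) (w * z)) * recipProd G =
        PowerSeries.mk (fun i => evSum n (M i) z) * recipProd G' → False) hmain
  refine ⟨max N (m + dl p), fun n hn z hz A hA hM _ => ?_⟩
  have hn1 : m + dl p ≤ n := (le_max_right _ _).trans hn
  have hn0 : n ≠ 0 := by omega
  obtain ⟨G, G', hG, hG', heq⟩ := twist hn0 hz hc1 A hA (n - m - dl p) M hM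
  obtain ⟨w, hw, hwz⟩ := exists_w hc hn1 hz
  rw [hwz] at heq
  have hfil : A.filter (fun α => p ^ (n - m - dl p + 1) ∣ ramIdx ℚ_[p]⟮α⟯) =
      A.filter (fun α => p ^ n ∣ ee α * p ^ (m + dl p - 1)) :=
    Multiset.filter_congr fun α _ => dvd_iff hn1 _
  rw [hfil] at hG
  by_contra hcon
  push Not at hcon
  have h5 : G.card < D := by rw [hG]; omega
  exact hN n ((le_max_left _ _).trans hn) w hw z hz G G' h5 (by rw [hG']; exact h5) heq

end Pool.Agent.KS6_3.ZR
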