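import Mathlib
import Pool.Agent.KS6_3.ZR.Asm
import Pool.Agent.KS6_3.ZL.H707R3.WeilTower

/-!
The coefficients of the `L`-functions of a `ℤ_p`-tower as values of formal sums.
-/

set_option autoImplicit false
set_option linter.unusedSectionVars false

open PowerSeries

namespace Pool.Agent.KS6_3.ZR

open Pool.Agent.H707R3

variable {p : ℕ} [Fact p.Prime] {k F E : Type} [Field k] [Finite k] [CharP k p]
  [Field F] [Algebra k F] [Field E] [Algebra F E] [Algebra k E] [IsScalarTower k F E]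

theorem tower_data (h : IsZpTower k F E p) :
    ∃ M : ℕ → ℤ_[p] →₀ ℕ,
      (∀ (n : ℕ) (χ : (E ≃ₐ[F] E) →* ℂ_[p]ˣ), orderOf χ = p ^ n →
        ∃ z : ℂ_[p], IsPrimitiveRoot z (p ^ n) ∧ ∀ i, coeff i (Lfun k χ) = evSum n (M i) z) ∧
      (∃ k₀ b₀, b₀ ∈ (M k₀).support ∧ ¬ (p : ℤ_[p]) ∣ b₀) ∧
      ∀ D : ℕ, ∃ i b, D ≤ i ∧ b ∈ (M i).support := by
  classical
  obtain ⟨Φ⟩ := h.group
  obtain ⟨v₀, hv₀, hv₀'⟩ := Pool.Agent.Y701.ZT.exists_unit_frob h Φ
  let ι := {v : Place k F // v.IsUnramified E}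
  let ρ : ι → ℤ_[p] := fun v => (Φ (v.1.frob E)).toAdd
  let d : ι → ℕ := fun v => v.1.deg
  have hd : ∀ v, d v ≠ 0 := fun v => deg_ne_zero h.base v.1
  have hfin : ∀ m, {v : ι | d v ≤ m}.Finite := by
    intro m
    exact (finite_deg_le h.base m).preimage Subtype.val_injective.injOn
  let M : ℕ → ℤ_[p] →₀ ℕ := fun j => (theta ρ d (hfin j).toFinset j).coeff
  have hmem : ∀ v : ι, ρ v ∈ (M (d v)).support := fun v =>
    mem_support_theta ρ d _ (by simp) (hd _)
  refine ⟨M, ?_, ⟨d ⟨v₀, hv₀⟩, ρ ⟨v₀, hv₀⟩, hmem _, hv₀'⟩, ?_⟩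
  · intro n χ hχ
    obtain ⟨hz, hval⟩ := char_eq Φ.toMulEquiv χ hχ
    refine ⟨_, hz, fun i => ?_⟩
    set z : ℂ_[p] := ((χ (Φ.toMulEquiv.symm (Multiplicative.ofAdd 1)) : ℂ_[p]ˣ) : ℂ_[p]) with hzdef
    have hE : Lfun k χ = eulerL ρ d n z := by
      rw [Lfun, eulerL]
      congr 1
      funext v
      rw [hval (v.1.frob E)]
      rfl
    rw [hE, coeff_eulerL ρ d hd hfin hz.pow_eq_one]
  · intro D
    have hinf : Infinite ι := by
      have h1 : Infinite (Place k F) := infinite_place h.base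
      have h2 : ({v : Place k F | ¬ v.IsUnramified E}ᶜ).Infinite :=
        Set.Finite.infinite_compl h.finite_ramified
      have h3 : {v : Place k F | ¬ v.IsUnramified E}ᶜ = {v : Place k F | v.IsUnramified E} := by
        ext v
        simp
      rw [h3] at h2
      exact h2.to_subtype
    obtain ⟨v, hv⟩ : ∃ v : ι, v ∉ {v : ι | d v ≤ D} := (hfin D).exists_notMem
    simp only [Set.mem_ofPred_eq, not_le] at hv
    exact ⟨d v, ρ v, hv.le, hmem v⟩

lemma natDegree_recipPoly (A : Multiset ℂ_[p]) (hA : (0 : ℂ_[p]) ∉ A) :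
    (recipPoly A).natDegree = Multiset.card A := by
  induction A using Multiset.induction with
  | empty => simp [recipPoly]
  | cons α A ih =>
    have hα : α ≠ 0 := fun h => hA (by rw [h]; exact Multiset.mem_cons_self _ _)
    have hA' : (0 : ℂ_[p]) ∉ A := fun h => hA (Multiset.mem_cons_of_mem h)
    have h1 : recipPoly (α ::ₘ A) = (1 - Polynomial.C α * Polynomial.X) * recipPoly A := by
      simp [recipPoly]
    have h2 : (1 - Polynomial.C α * Polynomial.X : Polynomial ℂ_[p]).natDegree = 1 := by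
      have h3 : (1 - Polynomial.C α * Polynomial.X : Polynomial ℂ_[p]) =
          Polynomial.C (-α) * Polynomial.X + Polynomial.C 1 := by
        rw [map_neg, map_one]; ring
      rw [h3]
      exact Polynomial.natDegree_linear (neg_ne_zero.2 hα)
    have h4 : (1 - Polynomial.C α * Polynomial.X : Polynomial ℂ_[p]) ≠ 0 := by
      intro h0
      rw [h0, Polynomial.natDegree_zero] at h2
      exact zero_ne_one h2
    have h5 : recipPoly A ≠ 0 := by
      intro h0
      have h6 := coeff_zero_recipProd A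
      rw [← coe_recipPoly, h0, Polynomial.coe_zero, map_zero] at h6
      exact zero_ne_one h6
    rw [h1, Polynomial.natDegree_mul h4 h5, h2, ih hA', Multiset.card_cons, add_comm]

lemma recipPoly_ne_zero (A : Multiset ℂ_[p]) : recipPoly A ≠ 0 := by
  intro h0
  have h6 := coeff_zero_recipProd A
  rw [← coe_recipPoly, h0, Polynomial.coe_zero, map_zero] at h6
  exact zero_ne_one h6

/-- Without the zeros. -/
lemma recipProd_filter (A : Multiset ℂ_[p]) [DecidablePred fun α : ℂ_[p] => α ≠ 0] :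
    recipProd (A.filter fun α => α ≠ 0) = recipProd A := by
  induction A using Multiset.induction with
  | empty => simp [recipProd]
  | cons α A ih =>
    by_cases hα : α = 0
    · rw [Multiset.filter_cons_of_neg (p := fun α : ℂ_[p] => α ≠ 0) _ (not_not.2 hα), ih, recipProd_cons,
        hα]
      simp
    · rw [Multiset.filter_cons_of_pos (p := fun α : ℂ_[p] => α ≠ 0) _ hα, recipProd_cons, ih,
        recipProd_cons]

end Pool.Agent.KS6_3.ZR
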